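import Pool.Agent.Run7.h462.KT.Bas

/-!
# Project KT, piece CLK: the singular series does not depend on the cut
-/

set_option autoImplicit false

namespace Run7.h462.KT

open Finset Filter Topology
open Pool.Agent.H373R2.T7 (pz Vz mem_pz Vz_pos)
open Pool.Agent.TH204.WR (rho hh xp tail_all hh_close hh_mul hh_nonneg rho_le rho_le_deg')
open scoped Polynomial

variable {k : ℕ}

lemma one_sub_sum_le {ι : Type*} (s : Finset ι) (x : ι → ℝ) (h0 : ∀ i ∈ s, 0 ≤ x i) (h1 : ∀ i ∈ s, x i ≤ 1) :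
    1 - ∑ i ∈ s, x i ≤ ∏ i ∈ s, (1 - x i) := by
  classical
  induction s using Finset.induction_on with
  | empty => simp
  | insert i s hi ih =>
    rw [sum_insert hi, prod_insert hi]
    have ih := ih (fun j hj => h0 j (mem_insert_of_mem hj)) (fun j hj => h1 j (mem_insert_of_mem hj))
    have h2 := h0 i (mem_insert_self _ _)
    have h3 := h1 i (mem_insert_self _ _)
    have h4 : 0 ≤ ∑ j ∈ s, x j := sum_nonneg fun j hj => h0 j (mem_insert_of_mem hj)
    have h5 : (1 - x i) * (1 - ∑ j ∈ s, x j) ≤ (1 - x i) * ∏ j ∈ s, (1 - x j) :=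
      mul_le_mul_of_nonneg_left ih (by linarith)
    nlinarith

lemma one_add_sum_le {ι : Type*} (s : Finset ι) (x : ι → ℝ) (h0 : ∀ i ∈ s, 0 ≤ x i) :
    1 + ∑ i ∈ s, x i ≤ ∏ i ∈ s, (1 + x i) := by
  classical
  induction s using Finset.induction_on with
  | empty => simp
  | insert i s hi ih =>
    rw [sum_insert hi, prod_insert hi]
    have ih := ih (fun j hj => h0 j (mem_insert_of_mem hj))
    have h2 := h0 i (mem_insert_self _ _)
    have h4 : 0 ≤ ∑ j ∈ s, x j := sum_nonneg fun j hj => h0 j (mem_insert_of_mem hj)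
    have h5 : (1 + x i) * (1 + ∑ j ∈ s, x j) ≤ (1 + x i) * ∏ j ∈ s, (1 + x j) :=
      mul_le_mul_of_nonneg_left ih (by linarith)
    nlinarith

lemma prod_le_quot {ι : Type*} (s : Finset ι) (x : ι → ℝ) (h0 : ∀ i ∈ s, 0 ≤ x i) (h1 : ∀ i ∈ s, x i ≤ 1) :
    (∏ i ∈ s, (1 - x i)) * (1 + ∑ i ∈ s, x i) ≤ 1 := by
  have h2 : 0 ≤ ∏ i ∈ s, (1 - x i) := prod_nonneg fun i hi => by linarith [h1 i hi]
  calc (∏ i ∈ s, (1 - x i)) * (1 + ∑ i ∈ s, x i) ≤ (∏ i ∈ s, (1 - x i)) * ∏ i ∈ s, (1 + x i) :=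
        mul_le_mul_of_nonneg_left (one_add_sum_le s x h0) h2
    _ = ∏ i ∈ s, (1 - x i ^ 2) := by
        rw [← prod_mul_distrib]
        apply prod_congr rfl
        intro i _
        ring
    _ ≤ 1 := by
        apply prod_le_one
        · intro i hi
          have := h0 i hi
          have := h1 i hi
          nlinarith
        · intro i _
          have := sq_nonneg (x i)
          linarith

/-- the local quotient -/
noncomputable def uq (F : ℤ[X]) (a : Fin k → ℕ) (p : ℕ) : ℝ :=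
  (1 - (rk F a p : ℝ) / p) / ∏ i, (1 - (rho F (a i : ℤ) p : ℝ) / p)

open Classical in
lemma uq_close (F : ℤ[X]) (a : Fin k → ℕ) {p : ℕ} (hp : p.Prime) (hd : 1 ≤ F.natDegree)
    (hl : F.leadingCoeff.natAbs < p) (hl0 : F.leadingCoeff ≠ 0) (hpk : 2 * (k * F.natDegree) ≤ p) :
    (∀ i, 1 - (rho F (a i : ℤ) p : ℝ) / p ≠ 0) ∧
    |uq F a p - 1| ≤ ((k * F.natDegree : ℕ) : ℝ) ^ 2 * (1 / (p : ℝ) ^ 2) +
      (if ov a p then 2 * ((k * F.natDegree : ℕ) : ℝ) / p else 0) := by
  have hp0 : (0 : ℝ) < p := by exact_mod_cast hp.pos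
  obtain ⟨D, hD⟩ : ∃ D : ℝ, D = ((k * F.natDegree : ℕ) : ℝ) := ⟨_, rfl⟩
  have hD0 : 0 ≤ D := by rw [hD]; exact Nat.cast_nonneg _
  rw [← hD]
  have hDp : 2 * D ≤ p := by rw [hD]; exact_mod_cast hpk
  obtain ⟨x, hx⟩ : ∃ x : Fin k → ℝ, x = fun i => (rho F (a i : ℤ) p : ℝ) / p := ⟨_, rfl⟩
  have hx0 : ∀ i ∈ (univ : Finset (Fin k)), 0 ≤ x i := by
    intro i _
    rw [hx]
    positivity
  have hsum : ∑ i, x i = (∑ i, (rho F (a i : ℤ) p : ℝ)) / p := by
    rw [hx, sum_div]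
  have hρ : ∑ i, (rho F (a i : ℤ) p : ℝ) ≤ D := by
    rw [hD]
    have h1 : ∑ i : Fin k, rho F (a i : ℤ) p ≤ k * F.natDegree := by
      calc ∑ i : Fin k, rho F (a i : ℤ) p ≤ ∑ _i : Fin k, F.natDegree :=
            sum_le_sum fun i _ => rho_le_deg' F _ p hp hd hl hl0
        _ = _ := by simp
    exact_mod_cast h1
  have hs0 : 0 ≤ ∑ i, x i := sum_nonneg hx0
  have hsD : ∑ i, x i ≤ D / p := by
    rw [hsum]
    gcongr
  have hsh : ∑ i, x i ≤ 1 / 2 := by
    refine hsD.trans ?_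
    rw [div_le_div_iff₀ hp0 (by norm_num)]
    linarith
  have hx1 : ∀ i ∈ (univ : Finset (Fin k)), x i ≤ 1 := by
    intro i hi
    have := single_le_sum hx0 hi
    linarith
  have hx12 : ∀ i, x i ≤ 1 / 2 := by
    intro i
    have := single_le_sum hx0 (mem_univ i)
    linarith
  have hne : ∀ i, 1 - (rho F (a i : ℤ) p : ℝ) / p ≠ 0 := by
    intro i
    have h1 := hx12 i
    rw [hx] at h1
    simp only at h1
    linarith
  refine ⟨hne, ?_⟩
  have hq := prod_le_quot univ x hx0 hx1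
  have hw := one_sub_sum_le univ x hx0 hx1
  obtain ⟨s, hs⟩ : ∃ s : ℝ, s = ∑ i, x i := ⟨_, rfl⟩
  rw [← hs] at hs0 hsD hsh hq hw
  obtain ⟨Pq, hPq⟩ : ∃ Pq : ℝ, Pq = ∏ i, (1 - x i) := ⟨_, rfl⟩
  rw [← hPq] at hq hw
  have hPq0 : 0 < Pq := by linarith
  have hPq1 : Pq ≤ 1 := by nlinarith
  have huq : uq F a p = (1 - (rk F a p : ℝ) / p) / Pq := by
    unfold uq
    rw [hPq, hx]
  rw [huq]
  have hs2 : s ^ 2 ≤ D ^ 2 * (1 / (p : ℝ) ^ 2) := by
    calc s ^ 2 ≤ (D / p) ^ 2 := pow_le_pow_left₀ hs0 hsD 2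
      _ = _ := by ring
  by_cases hov : ov a p
  · rw [if_pos hov]
    have h1 : (rk F a p : ℝ) / p ≤ s := by
      rw [hs, hsum]
      have : (rk F a p : ℝ) ≤ ∑ i, (rho F (a i : ℤ) p : ℝ) := by exact_mod_cast rk_le_sum F a hp
      gcongr
    have h2 : 0 ≤ (rk F a p : ℝ) / p := by positivity
    have h3 : |(1 - (rk F a p : ℝ) / p) / Pq - 1| ≤ 2 * s := by
      rw [abs_le]
      constructor
      · have h4 : 1 - 2 * s ≤ (1 - (rk F a p : ℝ) / p) / Pq := by
          rw [le_div_iff₀ hPq0]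
          have h5 : (1 - 2 * s) * Pq ≤ (1 - 2 * s) * 1 := mul_le_mul_of_nonneg_left hPq1 (by linarith)
          linarith
        linarith
      · have h4 : (1 - (rk F a p : ℝ) / p) / Pq ≤ 1 + 2 * s := by
          rw [div_le_iff₀ hPq0]
          have h5 : (1 + 2 * s) * (1 - s) ≤ (1 + 2 * s) * Pq := mul_le_mul_of_nonneg_left hw (by linarith)
          nlinarith
        linarith
    have h4 : 2 * s ≤ 2 * D / p := by
      rw [mul_div_assoc]
      linarith
    have h5 : 0 ≤ D ^ 2 * (1 / (p : ℝ) ^ 2) := by positivity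
    linarith
  · rw [if_neg hov, add_zero]
    have h1 : (rk F a p : ℝ) / p = s := by
      rw [hs, hsum, rk_eq_sum F a hp hov]
      push_cast
      rfl
    rw [h1]
    refine le_trans ?_ hs2
    rw [abs_le]
    constructor
    · have h4 : 1 - s ^ 2 ≤ (1 - s) / Pq := by
        rw [le_div_iff₀ hPq0]
        have h5 : (1 - s) * (Pq * (1 + s)) ≤ (1 - s) * 1 := mul_le_mul_of_nonneg_left hq (by linarith)
        nlinarith
      linarith
    · have h4 : (1 - s) / Pq ≤ 1 := by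
        rw [div_le_one hPq0]
        exact hw
      have := sq_nonneg s
      linarith

lemma gk_mul (F : ℤ[X]) (a : Fin k → ℕ) (y z : ℕ) (hyz : y ≤ z) :
    gk F a z = gk F a y * ∏ p ∈ (Ioc y z).filter Nat.Prime, ((1 - (rk F a p : ℝ) / p) / (1 - 1 / (p : ℝ)) ^ k) := by
  have hu : pz z = pz y ∪ (Ioc y z).filter Nat.Prime := by
    ext p
    rw [mem_union, mem_filter, mem_Ioc, mem_pz, mem_pz]
    constructor
    · rintro ⟨h1, h2⟩
      rcases Nat.lt_or_ge y p with h3 | h3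
      · right; exact ⟨⟨h3, h1⟩, h2⟩
      · left; exact ⟨h3, h2⟩
    · rintro (⟨h1, h2⟩ | ⟨⟨h1, h2⟩, h3⟩)
      · exact ⟨by omega, h2⟩
      · exact ⟨h2, h3⟩
  have hdis : Disjoint (pz y) ((Ioc y z).filter Nat.Prime) := by
    rw [disjoint_left]
    intro p hp hq
    rw [mem_filter, mem_Ioc] at hq
    rw [mem_pz] at hp
    omega
  rw [gk_eq_prod, gk_eq_prod, hu, prod_union hdis]

lemma omega_le (m : ℕ) (hm : m ≠ 0) : (#m.primeFactors : ℝ) ≤ 2 * Real.log m := by
  have h1 : 2 ^ #m.primeFactors ≤ m := by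
    calc 2 ^ #m.primeFactors = ∏ _p ∈ m.primeFactors, 2 := by rw [prod_const]
      _ ≤ ∏ p ∈ m.primeFactors, p := prod_le_prod' fun p hp => (Nat.prime_of_mem_primeFactors hp).two_le
      _ ≤ m := Nat.le_of_dvd (Nat.pos_of_ne_zero hm) (Nat.prod_primeFactors_dvd m)
  have h2 : (2 : ℝ) ^ #m.primeFactors ≤ m := by exact_mod_cast h1
  have h3 := Real.log_le_log (by positivity) h2
  rw [Real.log_pow] at h3
  have h4 := Real.log_two_gt_d9
  have h5 : (0 : ℝ) ≤ #m.primeFactors := Nat.cast_nonneg _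
  nlinarith

open Classical in
/-- the number of the primes dividing a difference -/
lemma card_ov (a : Fin k → ℕ) (A : ℕ) (hinj : Function.Injective a) (ha : ∀ i, a i ∈ Icc 1 A) (S : Finset ℕ)
    (hS : ∀ p ∈ S, p.Prime) : (#(S.filter (fun p => ov a p)) : ℝ) ≤ k * k * (2 * Real.log A) := by
  have h1 : S.filter (fun p => ov a p) ⊆
      ((univ : Finset (Fin k × Fin k)).filter (fun e => e.1 ≠ e.2)).biUnion
        (fun e => ((a e.1 - a e.2) + (a e.2 - a e.1)).primeFactors) := by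
    intro p hp
    rw [mem_filter] at hp
    obtain ⟨hp1, i, j, hij, hm⟩ := hp
    rw [mem_biUnion]
    refine ⟨(i, j), ?_, ?_⟩
    · rw [mem_filter]
      exact ⟨mem_univ _, hij⟩
    · rw [Nat.mem_primeFactors]
      have hne : a i ≠ a j := fun h => hij (hinj h)
      refine ⟨hS p hp1, ?_, by simp only; omega⟩
      simp only
      rcases le_total (a i) (a j) with h | h
      · have h2 : (a i - a j) + (a j - a i) = a j - a i := by omega
        rw [h2]
        exact (Nat.modEq_iff_dvd' h).1 hm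
      · have h2 : (a i - a j) + (a j - a i) = a i - a j := by omega
        rw [h2]
        exact (Nat.modEq_iff_dvd' h).1 hm.symm
  have h2 : (#(S.filter (fun p => ov a p)) : ℝ) ≤
      ∑ e ∈ (univ : Finset (Fin k × Fin k)).filter (fun e => e.1 ≠ e.2),
        (#(((a e.1 - a e.2) + (a e.2 - a e.1)).primeFactors) : ℝ) := by
    exact_mod_cast (card_le_card h1).trans card_biUnion_le
  refine h2.trans ?_
  have hlog0 : 0 ≤ 2 * Real.log A := by
    have := Real.log_natCast_nonneg A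
    linarith
  have h3 : ∀ e ∈ (univ : Finset (Fin k × Fin k)).filter (fun e => e.1 ≠ e.2),
      (#(((a e.1 - a e.2) + (a e.2 - a e.1)).primeFactors) : ℝ) ≤ 2 * Real.log A := by
    intro e he
    rw [mem_filter] at he
    have hne : a e.1 ≠ a e.2 := fun h => he.2 (hinj h)
    have hi := mem_Icc.1 (ha e.1)
    have hj := mem_Icc.1 (ha e.2)
    refine (omega_le _ (by omega)).trans ?_
    have h5 : Real.log (((a e.1 - a e.2) + (a e.2 - a e.1) : ℕ) : ℝ) ≤ Real.log A := by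
      apply Real.log_le_log
      · exact_mod_cast (by omega : 0 < (a e.1 - a e.2) + (a e.2 - a e.1))
      · exact_mod_cast (by omega : (a e.1 - a e.2) + (a e.2 - a e.1) ≤ A)
    linarith
  refine (sum_le_sum h3).trans ?_
  rw [sum_const, nsmul_eq_mul]
  apply mul_le_mul_of_nonneg_right _ hlog0
  have h6 : #((univ : Finset (Fin k × Fin k)).filter (fun e => e.1 ≠ e.2)) ≤ k * k := by
    refine (card_filter_le _ _).trans ?_
    simp
  exact_mod_cast h6

lemma sum_inv_sq_le (y z : ℕ) (hy : 1 ≤ y) : ∑ p ∈ (Ioc y z).filter Nat.Prime, 1 / (p : ℝ) ^ 2 ≤ 1 / (y : ℝ) := by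
  have hyr : (0 : ℝ) < y := by exact_mod_cast hy
  have h5 : ∑ p ∈ (Ioc y z).filter Nat.Prime, 1 / (p : ℝ) ^ 2 ≤ ∑ n ∈ Ioc y z, (1 / ((n : ℝ) - 1) - 1 / n) := by
    calc ∑ p ∈ (Ioc y z).filter Nat.Prime, 1 / (p : ℝ) ^ 2 ≤ ∑ n ∈ Ioc y z, 1 / (n : ℝ) ^ 2 :=
          sum_le_sum_of_subset_of_nonneg (filter_subset _ _) (fun _ _ _ => by positivity)
      _ ≤ _ := by
          refine sum_le_sum fun n hn => ?_
          rw [mem_Ioc] at hn
          have h6 : (2 : ℝ) ≤ n := by exact_mod_cast (by omega : 2 ≤ n)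
          have h7 : (n : ℝ) - 1 ≠ 0 := by linarith
          have h8 : (n : ℝ) ≠ 0 := by linarith
          rw [div_sub_div _ _ h7 h8, div_le_div_iff₀ (by positivity) (by apply mul_pos <;> linarith)]
          nlinarith
  refine h5.trans ?_
  rcases le_total y z with hyz | hyz
  · have h6 : ∀ z : ℕ, y ≤ z → ∑ n ∈ Ioc y z, (1 / ((n : ℝ) - 1) - 1 / n) = 1 / (y : ℝ) - 1 / z := by
      intro z hz
      induction z, hz using Nat.le_induction with
      | base => simp
      | succ z hz ih =>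
        rw [sum_Ioc_succ_top hz, ih]
        push_cast
        ring
    rw [h6 z hyz]
    have : 0 ≤ 1 / (z : ℝ) := by positivity
    linarith
  · rw [Ioc_eq_empty (by omega), sum_empty]
    positivity

/-- the closeness for one tuple -/
lemma close_one (F : ℤ[X]) (a : Fin k → ℕ) (A y z : ℕ) (hd : 1 ≤ F.natDegree) (hl0 : F.leadingCoeff ≠ 0)
    (hinj : Function.Injective a) (ha : ∀ i, a i ∈ Icc 1 A) (hyz : y ≤ z) (hl : F.leadingCoeff.natAbs ≤ y)
    (hk : 4 * (k * F.natDegree) ≤ y) (hy1 : 1 ≤ y) (κ δ θ : ℝ) (hθ : θ ≤ 1)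
    (hclose : ∀ i, |hh F (a i : ℤ) z - hh F (a i : ℤ) y| ≤ 4 * κ * hh F (a i : ℤ) y)
    (hδ : ((k * F.natDegree : ℕ) : ℝ) ^ 2 * (1 / y) + 2 * ((k * F.natDegree : ℕ) : ℝ) / y * (k * k * (2 * Real.log A)) ≤ δ)
    (hκδ : 2 * (δ + k * (4 * κ)) ≤ θ) (hκ : 0 ≤ κ) : |gk F a z - gk F a y| ≤ θ * gk F a y := by
  classical
  have hyr : (0 : ℝ) < y := by exact_mod_cast hy1
  have hDnn : (0 : ℝ) ≤ ((k * F.natDegree : ℕ) : ℝ) := Nat.cast_nonneg _
  by_cases hz0 : ∃ i, hh F (a i : ℤ) y = 0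
  · obtain ⟨i, hi⟩ := hz0
    have h1 : ∏ p ∈ pz y, (1 - (rho F (a i : ℤ) p : ℝ) / p) = 0 := by
      unfold hh at hi
      rcases mul_eq_zero.1 hi with h | h
      · exact absurd h (inv_ne_zero (Vz_pos y).ne')
      · exact h
    rw [prod_eq_zero_iff] at h1
    obtain ⟨p, hp, hp1⟩ := h1
    have hp' := mem_pz.1 hp
    have hp0 : (0 : ℝ) < p := by exact_mod_cast hp'.2.pos
    have h2 : (rho F (a i : ℤ) p : ℝ) = p := by
      rw [sub_eq_zero, eq_comm, div_eq_one_iff_eq hp0.ne'] at hp1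
      exact hp1
    have h3 : (p : ℝ) ≤ rk F a p := by
      rw [← h2]
      exact_mod_cast le_rk F a hp'.2 i
    have h4 : (rk F a p : ℝ) = p := le_antisymm (by exact_mod_cast rk_le F a p) h3
    have h5 : gk F a y = 0 := by
      unfold gk
      rw [prod_eq_zero hp (by rw [h4, div_self hp0.ne', sub_self]), zero_div]
    rw [gk_mul F a y z hyz, h5]
    simp
  · push Not at hz0
    set P := (Ioc y z).filter Nat.Prime with hP
    have hPm : ∀ p ∈ P, y < p ∧ p.Prime := by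
      intro p hp
      rw [hP, mem_filter, mem_Ioc] at hp
      exact ⟨hp.1.1, hp.2⟩
    have huq : ∀ p ∈ P, (∀ i, 1 - (rho F (a i : ℤ) p : ℝ) / p ≠ 0) ∧
        |uq F a p - 1| ≤ ((k * F.natDegree : ℕ) : ℝ) ^ 2 * (1 / (p : ℝ) ^ 2) +
          (if ov a p then 2 * ((k * F.natDegree : ℕ) : ℝ) / p else 0) := by
      intro p hp
      obtain ⟨h1, h2⟩ := hPm p hp
      exact uq_close F a h2 hd (by omega) hl0 (by omega)
    obtain ⟨R, hR⟩ : ∃ R : Fin k → ℝ, R = fun i => ∏ p ∈ P, (1 - xp F (a i : ℤ) p) := ⟨_, rfl⟩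
    have hfac : ∏ p ∈ P, ((1 - (rk F a p : ℝ) / p) / (1 - 1 / (p : ℝ)) ^ k) = (∏ p ∈ P, uq F a p) * ∏ i, R i := by
      rw [hR]
      simp only
      rw [Finset.prod_comm, ← prod_mul_distrib]
      apply prod_congr rfl
      intro p hp
      obtain ⟨h1, h2⟩ := hPm p hp
      have hp2 : (2 : ℝ) ≤ p := by exact_mod_cast h2.two_le
      have h3 : ∀ i : Fin k, 1 - xp F (a i : ℤ) p = (1 - (rho F (a i : ℤ) p : ℝ) / p) / (1 - 1 / (p : ℝ)) := by
        intro i
        unfold xp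
        have h3 : (p : ℝ) - 1 ≠ 0 := by linarith
        have h4 : (p : ℝ) ≠ 0 := by linarith
        have h5 : 1 - 1 / (p : ℝ) = ((p : ℝ) - 1) / p := by field_simp
        rw [h5]
        field_simp
        ring
      simp only [h3]
      rw [prod_div_distrib, prod_const, card_univ, Fintype.card_fin]
      unfold uq
      have h4 : ∏ i, (1 - (rho F (a i : ℤ) p : ℝ) / p) ≠ 0 := prod_ne_zero_iff.2 fun i _ => (huq p hp).1 i
      rw [div_mul_div_cancel₀ h4]
    -- the two products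
    have hRi : ∀ i, |R i - 1| ≤ 4 * κ := by
      intro i
      have h1 := hclose i
      rw [hh_mul F (a i : ℤ) y z hyz, ← hP] at h1
      have h0 : 0 < hh F (a i : ℤ) y := lt_of_le_of_ne (hh_nonneg F _ y hy1) (Ne.symm (hz0 i))
      have h2 : hh F (a i : ℤ) y * ∏ p ∈ P, (1 - xp F (a i : ℤ) p) - hh F (a i : ℤ) y = (R i - 1) * hh F (a i : ℤ) y := by
        rw [hR]
        ring
      rw [h2, abs_mul, abs_of_pos h0] at h1
      exact le_of_mul_le_mul_right h1 h0
    have hU : |∏ p ∈ P, uq F a p - 1| ≤ Real.exp δ - 1 := by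
      have h1 := Finset.norm_prod_one_add_sub_one_le P (fun p => uq F a p - 1)
      simp only [add_sub_cancel, Real.norm_eq_abs] at h1
      refine h1.trans ?_
      have h2 : ∑ p ∈ P, |uq F a p - 1| ≤ δ := by
        refine le_trans ?_ hδ
        refine (sum_le_sum fun p hp => (huq p hp).2).trans ?_
        rw [sum_add_distrib, ← mul_sum]
        apply add_le_add
        · exact mul_le_mul_of_nonneg_left (sum_inv_sq_le y z hy1) (by positivity)
        · rw [← sum_filter]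
          calc ∑ p ∈ P.filter (fun p => ov a p), 2 * ((k * F.natDegree : ℕ) : ℝ) / p ≤
              ∑ _p ∈ P.filter (fun p => ov a p), 2 * ((k * F.natDegree : ℕ) : ℝ) / y := by
                apply sum_le_sum
                intro p hp
                rw [mem_filter] at hp
                have h3 : (y : ℝ) ≤ p := by exact_mod_cast (hPm p hp.1).1.le
                gcongr
            _ = 2 * ((k * F.natDegree : ℕ) : ℝ) / y * (#(P.filter (fun p => ov a p)) : ℝ) := by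
                rw [sum_const, nsmul_eq_mul]
                ring
            _ ≤ _ := by
                apply mul_le_mul_of_nonneg_left _ (by positivity)
                exact card_ov a A hinj ha P (fun p hp => (hPm p hp).2)
      have h3 := Real.exp_le_exp.2 h2
      linarith
    have hRR : |∏ i, R i - 1| ≤ Real.exp (k * (4 * κ)) - 1 := by
      have h1 := Finset.norm_prod_one_add_sub_one_le (univ : Finset (Fin k)) (fun i => R i - 1)
      simp only [add_sub_cancel, Real.norm_eq_abs] at h1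
      refine h1.trans ?_
      have h2 : ∑ i, |R i - 1| ≤ k * (4 * κ) := by
        refine (sum_le_sum fun i _ => hRi i).trans ?_
        simp
      have h3 := Real.exp_le_exp.2 h2
      linarith
    obtain ⟨U, hUd⟩ : ∃ U : ℝ, U = ∏ p ∈ P, uq F a p := ⟨_, rfl⟩
    obtain ⟨V, hVd⟩ : ∃ V : ℝ, V = ∏ i, R i := ⟨_, rfl⟩
    rw [← hUd] at hU hfac
    rw [← hVd] at hRR hfac
    have hδ0 : 0 ≤ δ := by
      refine le_trans ?_ hδ
      have : 0 ≤ Real.log A := Real.log_natCast_nonneg A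
      positivity
    have hk4 : 0 ≤ (k : ℝ) * (4 * κ) := by positivity
    have hfin : |U * V - 1| ≤ θ := by
      have h1 : U * V - 1 = (U - 1) * (V - 1) + (U - 1) + (V - 1) := by ring
      have h2 : |U * V - 1| ≤ |U - 1| * |V - 1| + |U - 1| + |V - 1| := by
        rw [h1, ← abs_mul]
        refine (abs_add_le _ _).trans ?_
        have := abs_add_le ((U - 1) * (V - 1)) (U - 1)
        linarith
      have hv0 : 0 ≤ |V - 1| := abs_nonneg _
      have hE0 : 0 ≤ Real.exp δ - 1 := by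
        have := Real.add_one_le_exp δ
        linarith
      have h3 : |U - 1| * |V - 1| ≤ (Real.exp δ - 1) * (Real.exp (k * (4 * κ)) - 1) := mul_le_mul hU hRR hv0 hE0
      have h4 : |U * V - 1| ≤ Real.exp (δ + k * (4 * κ)) - 1 := by
        rw [Real.exp_add]
        linarith
      have h5 := Real.abs_exp_sub_one_le (x := δ + k * (4 * κ)) (by
        rw [abs_of_nonneg (by linarith)]
        linarith)
      rw [abs_of_nonneg (by
        have := Real.add_one_le_exp (δ + k * (4 * κ))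
        linarith), abs_of_nonneg (by linarith)] at h5
      linarith
    rw [gk_mul F a y z hyz, ← hP, hfac]
    have h6 : gk F a y * (U * V) - gk F a y = (U * V - 1) * gk F a y := by ring
    rw [h6, abs_mul, abs_of_nonneg (gk_nonneg F a y)]
    exact mul_le_mul_of_nonneg_right hfin (gk_nonneg F a y)

theorem clk (F : ℤ[X]) (k : ℕ) (hd : 1 ≤ F.natDegree) : S_CLK F k := by
  classical
  intro U θ0 hθ0
  obtain ⟨θ, hθ, hθ1, hθθ⟩ : ∃ θ : ℝ, 0 < θ ∧ θ ≤ 1 ∧ θ ≤ θ0 :=
    ⟨min θ0 1, lt_min hθ0 one_pos, min_le_right _ _, min_le_left _ _⟩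
  have hF0 : F ≠ 0 := by
    intro h
    rw [h, Polynomial.natDegree_zero] at hd
    omega
  have hl0 : F.leadingCoeff ≠ 0 := Polynomial.leadingCoeff_ne_zero.2 hF0
  obtain ⟨E1, hE1⟩ := tail_all F hd 1 U
  refine ⟨E1 + 3, fun E hE => ?_⟩
  obtain ⟨X1, hX1⟩ := hE1 E (by omega)
  obtain ⟨D, hD⟩ : ∃ D : ℝ, D = ((k * F.natDegree : ℕ) : ℝ) := ⟨_, rfl⟩
  have hD0 : 0 ≤ D := by rw [hD]; exact Nat.cast_nonneg _
  obtain ⟨Cb, hCb⟩ : ∃ Cb : ℝ, Cb = 16 + 16 * (F.natDegree : ℝ) ^ 2 + 8 * F.natDegree + 2 * F.leadingCoeff.natAbs +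
    8 * D + 2 * (2 * (D ^ 2 * 2 + 2 * D * 2 * (k * k * 2)) + 2 * (k * 4)) / θ := ⟨_, rfl⟩
  obtain ⟨X2, hX2⟩ := eventually_atTop.1 (Pool.Agent.TH204.WR.evt_log_ge Cb)
  refine ⟨X1 + X2 + 1, fun A hA => ?_⟩
  have hL := hX2 A (by omega)
  obtain ⟨L, hLd⟩ : ∃ L : ℝ, L = Real.log A := ⟨_, rfl⟩
  obtain ⟨Bt, hBt1, hBt2, hBt3⟩ := hX1 A (by omega)
  rw [← hLd] at hBt2 hBt3 hL ⊢
  obtain ⟨y, hy⟩ : ∃ y : ℕ, y = ⌊L ^ E⌋₊ := ⟨_, rfl⟩
  rw [← hy] at hBt3 ⊢
  have hlc : (0 : ℝ) ≤ (F.leadingCoeff.natAbs : ℝ) := Nat.cast_nonneg _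
  have hdd : (0 : ℝ) ≤ (F.natDegree : ℝ) := Nat.cast_nonneg _
  have hCθ : 0 ≤ 2 * (2 * (D ^ 2 * 2 + 2 * D * 2 * (k * k * 2)) + 2 * (k * 4)) / θ := by positivity
  have hdsq : 0 ≤ (F.natDegree : ℝ) ^ 2 := sq_nonneg _
  have hL16 : 16 ≤ L := by linarith
  have hL0 : 0 < L := by linarith
  have hL1 : 1 ≤ L := by linarith
  have hy3 : L ^ 3 ≤ L ^ E := pow_le_pow_right₀ hL1 (by omega)
  have hLLL : L * L ≤ L ^ 3 := by nlinarith [mul_pos hL0 hL0]
  have hyge : L * L / 2 ≤ y := by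
    have h1 : L ^ E < y + 1 := by rw [hy]; exact Nat.lt_floor_add_one _
    nlinarith
  have hyL : L ≤ y := by nlinarith
  have hyr : (0 : ℝ) < y := by linarith
  have hy1 : 1 ≤ y := by
    have : (1 : ℝ) ≤ y := by linarith
    exact_mod_cast this
  refine ⟨(Icc 1 A).filter (fun n : ℕ => (n : ℤ) ∈ Bt), filter_subset _ _, ?_, ?_⟩
  · refine le_trans ?_ hBt2
    have h1 : #((Icc 1 A).filter (fun n : ℕ => (n : ℤ) ∈ Bt)) ≤ #Bt := by
      apply Finset.card_le_card_of_injOn (fun a : ℕ => (a : ℤ))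
      · intro a ha
        simp only [coe_filter, Set.mem_ofPred_eq] at ha
        exact ha.2
      · intro a _ b _ hab
        exact Nat.cast_injective hab
    exact_mod_cast h1
  · intro a hinj haA haB z hyz hz3
    have hyz' : y ≤ z := hyz
    have hκ : (1 : ℝ) / L * 2 ≤ 1 := by
      rw [div_mul_eq_mul_div, div_le_one hL0]
      linarith
    have hκ0 : 0 ≤ 1 / L := by positivity
    have hcl : ∀ i, |hh F (a i : ℤ) z - hh F (a i : ℤ) y| ≤ 4 * (1 / L) * hh F (a i : ℤ) y := by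
      intro i
      have hai := mem_Icc.1 (haA i)
      have hnB : ((a i : ℕ) : ℤ) ∉ Bt := by
        intro h
        exact haB i (mem_filter.2 ⟨haA i, h⟩)
      have h1 := hBt3 (a i : ℤ) (by rw [mem_Icc]; omega) hnB z hyz' hz3
      rw [pow_one] at h1
      refine hh_close F (a i : ℤ) y z hd ?_ hl0 hyz' (1 / L) ?_ ?_ (by linarith) h1
      · have h3 : (F.leadingCoeff.natAbs : ℝ) ≤ y := by nlinarith
        exact_mod_cast h3
      · rw [one_div, inv_mul_eq_div, le_div_iff₀ hL0]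
        have h3 : 16 * (F.natDegree : ℝ) ^ 2 ≤ L := by nlinarith
        have h4 : (16 * (F.natDegree : ℝ) ^ 2) * L ≤ L * L := mul_le_mul_of_nonneg_right h3 hL0.le
        linarith
      · have h3 : ((4 * F.natDegree : ℕ) : ℝ) ≤ y := by
          push_cast
          nlinarith
        exact_mod_cast h3
    have hgk := gk_nonneg F a y
    refine le_trans (close_one F a A y z hd hl0 hinj haA hyz' ?_ ?_ hy1 (1 / L) ((D ^ 2 * 2 + 2 * D * 2 * (k * k * 2)) / L) θ
      hθ1 hcl ?_ ?_ hκ0) (mul_le_mul_of_nonneg_right hθθ hgk)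
    · have h3 : (F.leadingCoeff.natAbs : ℝ) ≤ y := by nlinarith
      exact_mod_cast h3
    · have h3 : ((4 * (k * F.natDegree) : ℕ) : ℝ) ≤ y := by
        have : ((4 * (k * F.natDegree) : ℕ) : ℝ) = 4 * D := by
          rw [hD]
          push_cast
          ring
        rw [this]
        nlinarith
      exact_mod_cast h3
    · rw [← hD, ← hLd]
      have h1 : 1 / (y : ℝ) ≤ 2 / (L * L) := by
        rw [div_le_div_iff₀ hyr (by positivity)]
        linarith
      have h2 : 2 / (L * L) ≤ 2 / L := by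
        apply div_le_div_of_nonneg_left (by norm_num) hL0
        nlinarith
      calc D ^ 2 * (1 / (y : ℝ)) + 2 * D / y * (k * k * (2 * L))
          = D ^ 2 * (1 / (y : ℝ)) + 2 * D * (k * k * (2 * L)) * (1 / (y : ℝ)) := by ring
        _ ≤ D ^ 2 * (2 / L) + 2 * D * (k * k * (2 * L)) * (2 / (L * L)) := by
            apply add_le_add
            · exact mul_le_mul_of_nonneg_left (h1.trans h2) (by positivity)
            · exact mul_le_mul_of_nonneg_left h1 (by positivity)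
        _ = (D ^ 2 * 2 + 2 * D * 2 * (k * k * 2)) / L := by
            field_simp
    · have h1 : 2 * (2 * (D ^ 2 * 2 + 2 * D * 2 * (k * k * 2)) + 2 * (k * 4)) / θ ≤ L := by linarith
      rw [div_le_iff₀ hθ] at h1
      have h2 : 2 * ((D ^ 2 * 2 + 2 * D * 2 * (k * k * 2)) / L + k * (4 * (1 / L))) =
          (2 * (D ^ 2 * 2 + 2 * D * 2 * (k * k * 2)) + 2 * (k * 4)) / L := by
        field_simp
      rw [h2, div_le_iff₀ hL0]
      have h3 : 0 ≤ 2 * (D ^ 2 * 2 + 2 * D * 2 * (k * k * 2)) + 2 * (k * 4 : ℝ) := by positivity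
      nlinarith

end Run7.h462.KT
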