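import Mathlib
import Pool.Agent.Run7.h462.BPG.Stm

/-!
# Project KT (helper462): simultaneous primes `F(n) + a_1, ..., F(n) + a_k` for a positive proportion of the `k`-tuples of
distinct integers `a_i ≤ A` in a window of length `H`, `C log N ≤ H ≤ A`, `F` any integer polynomial of degree `d ≥ 2`

Statements. Every statement is a `Prop` with a complete proof in its docstring. Tuples are functions `a : Fin k → ℕ`.
-/

set_option autoImplicit false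

namespace Run7.h462.KT

open Finset Filter Topology
open Pool.Agent.H373R2.T7 (pz Vz)
open Pool.Agent.TH204.WR (rho hh)
open Run7.h462.BPG (lam)
open scoped Polynomial

/-- the product of the polynomials `F + a_i` -/
noncomputable def Q {k : ℕ} (F : ℤ[X]) (a : Fin k → ℕ) : ℤ[X] := ∏ i, (F + Polynomial.C ((a i : ℕ) : ℤ))

/-- the number of the residues `n` modulo `p` such that `p` divides some `F(n) + a_i` -/
noncomputable def rk {k : ℕ} (F : ℤ[X]) (a : Fin k → ℕ) (p : ℕ) : ℕ := rho (Q F a) 0 p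

/-- the truncated singular series of the tuple -/
noncomputable def gk {k : ℕ} (F : ℤ[X]) (a : Fin k → ℕ) (z : ℕ) : ℝ :=
  (∏ p ∈ pz z, (1 - (rk F a p : ℝ) / p)) / Vz z ^ k

/-- the number of the `1 ≤ n ≤ N` for which all `F(n) + a_i` are primes -/
def Pk {k : ℕ} (F : ℤ[X]) (a : Fin k → ℕ) (N : ℕ) : ℕ :=
  #((Icc 1 N).filter (fun n : ℕ => ∀ i, Nat.Prime (F.eval (n : ℤ) + a i).toNat))

/-- the tuple `y + h_i` -/
def sh {k : ℕ} (y : ℕ) (h : Fin k → ℕ) : Fin k → ℕ := fun i => y + h i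

/-- the tuples of distinct integers `0 ≤ h_i < H` -/
def inj (k H : ℕ) : Finset (Fin k → ℕ) := (Fintype.piFinset (fun _ : Fin k => range H)).filter Function.Injective

/-- two of the `h_i` are congruent modulo `p` -/
def ov {k : ℕ} (h : Fin k → ℕ) (p : ℕ) : Prop := ∃ i j, i ≠ j ∧ h i ≡ h j [MOD p]

/-- **UPK**: pointwise upper bound. Proof: as `Run7.h704.BPD.up` (`Pool/Agent/Run7/h704/BPD/UP.lean`) with
`Pool.Agent.TH204.WR.flp (k d)` for the polynomial `Q F a` and `t = 0` (`k ≥ 1`). If all `F(n) + a_i > z` are primes then no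
`p ≤ z` divides their product; the `n` with `F(n) + a_i ≤ z` for some `i` are at most `k (n₀ + 2 z)` in number (`eval_large`). If
`rk F a p = p` for some `p ≤ z` then some `F(n) + a_i` is `≤ z` for every counted `n`. -/
def S_UPK (F : ℤ[X]) (k : ℕ) : Prop := ∃ C : ℝ, 1 ≤ C ∧ ∃ κ : ℝ, 0 < κ ∧ κ ≤ 1 / 10 ∧ ∃ N₀ : ℕ, ∀ N : ℕ, N₀ ≤ N →
  ∃ z : ℕ, 2 ≤ z ∧ (N : ℝ) ^ κ ≤ z ∧ (z : ℝ) ≤ (N : ℝ) ^ (1 / 10 : ℝ) ∧
  ∀ a : Fin k → ℕ, (Pk F a N : ℝ) ≤ C * N * (Vz z ^ k * gk F a z) + C * (N : ℝ) ^ (3 / 4 : ℝ)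

open Classical in
/-- **OV**: the primes dividing the differences, on average. Proof. For `m ≥ 1` let `g(m)` be the product of `1 + C/p` over the
primes `p ∣ m`, `p > y`. The product for `h` is at most `∏_{i < j} g(|h_i - h_j|) ≤ 1 + ∑_{i < j} (g(|h_i - h_j|)^M - 1)`, `M` the number of the
pairs (`∏ x_e ≤ (max x_e)^M`). `g(m)^M` is at most the same product with `C_M = (1 + C)^M - 1` instead of `C`, and
`∑_{m ≤ H} ∏_{p ∣ m, p > y} (1 + C_M / p) = ∑_S ∏_{p ∈ S} (C_M / p) ⌊H / ∏_{p ∈ S} p⌋ ≤ H ∏_{y < p ≤ H} (1 + C_M / p²) ≤ H exp (C_M / y) ≤ H (1 + C_M exp (C_M) / y)`. -/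
def S_OV (k : ℕ) : Prop := ∀ C : ℝ, 0 ≤ C → ∃ C' : ℝ, 0 ≤ C' ∧ ∀ y : ℕ, 1 ≤ y → ∀ w H : ℕ,
  ∑ h ∈ inj k H, ∏ p ∈ (pz w).filter (fun p => y < p ∧ ov h p), (1 + C / (p : ℝ)) ≤ (1 + C' / y) * (H : ℝ) ^ k

/-- **GA**: the average of the truncated singular series of the linear tuples (from OV), an upper bound. Proof. `rk X h p` is the
number of the residue classes of the `h_i` modulo `p`. For `w ≥ y`: the factor of `p ∈ (y, w]` is at most `1` if `p` divides no difference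
(`(1 - k/p) ≤ (1 - 1/p)^k`) and at most `(1 - 1/p)^(1 - k) ≤ 1 + 3^k / p` otherwise. So
`∑_h gk X h w ≤ ∑_h gk X h y + Vz(y)^(-k) ∑_h (∏_{p > y, ov} (1 + 3^k/p) - 1)`; the last sum is at most `(C' / y) H^k + (H^k - #inj)` by OV, and
`Vz(y)^(-k) ≤ (C log y)^k` (`Pool.Agent.N792.Shp.V1_lower`); choose `y` large, and then `H` large. The function `gk X h y` has the period
`W = ∏_{p ≤ y} p` in every variable and its mean over `[0, W)^k` is `1`: `∏_{p ≤ y} (1 - rk X h p / p)` is `1/W` times the number of the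
`x` modulo `W` such that all `x + h_i` are coprime to `W`, and for given `x` the number of the `h` is `(W Vz(y))^k`. -/
def S_GA (k : ℕ) : Prop := ∀ θ : ℝ, 0 < θ → ∃ H₀ w₀ : ℕ, ∀ H : ℕ, H₀ ≤ H → ∀ w : ℕ, w₀ ≤ w →
  ∑ h ∈ inj k H, gk (Polynomial.X : ℤ[X]) h w ≤ (1 + θ) * (H : ℝ) ^ k

/-- **AVK**: the first moment (from GA). Proof: as `Run7.h704.BPD.av` (`Pool/Agent/Run7/h704/BPD/AV.lean`), for every `h`: `flp (k d)` for
`Q F (sh y h)`, `t = 0`, `n ≤ A`, from below (if `rk = p` for some `p ≤ w` then `gk = 0`), and for fixed `n` and `h` from above `flp k`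
for `Q X h`, `t = 0`, at the shift `F(n)`, on the `y ≤ A`: the density is `∏ (1 - rk X h p / p)` (if `rk X h p = p` then the number of the `y` is `0`).
So `(1 - ε) A ∑_y Vz^k gk F (sh y h) w ≤ (1 + ε) A A Vz^k gk X h w`; sum over `h` and use GA. -/
def S_AVK (F : ℤ[X]) (k : ℕ) : Prop := ∀ (E : ℕ) (θ : ℝ), 0 < θ → ∃ A₀ H₀ : ℕ, ∀ A : ℕ, A₀ ≤ A → ∀ w : ℕ,
  Real.log A ≤ w → (w : ℝ) ≤ Real.log A ^ E → ∀ H : ℕ, H₀ ≤ H →
  ∑ h ∈ inj k H, ∑ y ∈ Icc 1 A, gk F (sh y h) w ≤ (1 + θ) * (A * (H : ℝ) ^ k)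

/-- **SQK**: the second moment (from OV). Proof: as `Run7.h704.BPD.sq` (`Pool/Agent/Run7/h704/BPD/SQ.lean`), for fixed `h`. Reduction to
`w₀ ≤ (log A) / 8` with `(Vz w₀ / Vz w)^k ≤ K^k`. Period `W = ∏_{p ≤ w₀} p ≤ A` of the function of `y`, CRT (`crt_prod`). Local factor, `p > |ℓ|` (`ℓ` the
leading coefficient of `F`): `rk F a p ≤ ∑ rho F a_i p ≤ k d`; `∑_{y mod p} rk F (sh y h) p = p ν` with `ν = rk X h p ≥ 1` the number of the residue classes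
of the `h_i` (for every `n` the `y` with `p ∣ ∏ (F(n) + y + h_i)` form `ν` classes), so `∑_y (1 - rk/p)² ≤ p - 2 ν + k d ν / p`, and divided by
`(1 - 1/p)^(2k)` this is `≤ p (1 + C/p²)` for `ν = k` and `≤ p (1 + C/p)` otherwise (if `ov h p`). For `p ≤ |ℓ|`: `≤ p 4^k`. So the sum over `y ≤ A` is at most
`C A ∏_{p ≤ w₀, ov h p} (1 + C/p)`; OV with `y = 1`. -/
def S_SQK (F : ℤ[X]) (k : ℕ) : Prop := ∀ E : ℕ, ∃ C : ℝ, 1 ≤ C ∧ ∃ A₀ : ℕ, ∀ A : ℕ, A₀ ≤ A → ∀ w : ℕ, 2 ≤ w →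
  (w : ℝ) ≤ Real.log A ^ E → ∀ H : ℕ,
  ∑ h ∈ inj k H, ∑ y ∈ Icc 1 A, (gk F (sh y h) w) ^ 2 ≤ C * (A * (H : ℝ) ^ k)

/-- **CLK**: the singular series does not depend on the cut. Proof. `tail_all F _ 1 U` for every `a_i`; `Bt` the exceptions. If some
`hh F (a i) y = 0` (`y` the cut) then `rk = p` for some `p ≤ y` and both sides are `0`. Otherwise `hh_close` gives
`∏_i ∏_{y < p ≤ z} (1 - ρ_i/p) / (1 - 1/p) = 1 + O(1/L)`. For `p > y` with `¬ ov a p` the sets of roots are disjoint, `rk = s p`, `s = ∑ ρ_i / p`, and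
`1 - s ≤ ∏ (1 - ρ_i / p) ≤ 1 - s + s²`; if `ov a p` both `1 - rk/p` and `∏ (1 - ρ_i/p)` are in `[1 - s, 1]`, `s ≤ k d / p`. The number of the
primes `p` with `ov a p` is at most `k² log A / log 2`. So the quotient is `1 + O(L / y)`. -/
def S_CLK (F : ℤ[X]) (k : ℕ) : Prop := ∀ (U : ℕ) (θ : ℝ), 0 < θ → ∃ E₀ : ℕ, ∀ E : ℕ, E₀ ≤ E → ∃ A₀ : ℕ, ∀ A : ℕ, A₀ ≤ A →
  ∃ Bt : Finset ℕ, Bt ⊆ Icc 1 A ∧ (#Bt : ℝ) ≤ A / Real.log A ^ U ∧
  ∀ a : Fin k → ℕ, Function.Injective a → (∀ i, a i ∈ Icc 1 A) → (∀ i, a i ∉ Bt) →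
  ∀ z : ℕ, ⌊Real.log A ^ E⌋₊ ≤ z → z ^ 3 ≤ A →
    |gk F a z - gk F a ⌊Real.log A ^ E⌋₊| ≤ θ * gk F a ⌊Real.log A ^ E⌋₊

/-- **FMK**: the lower bound for the tuples on average (from `BPG.S_FM`). Proof. Let `X(n, y)` be the number of the `j < H` such that `F(n) + y + j` is
prime, `n ≤ N`, `1 ≤ y ≤ A - H`. As in `Pool/Agent/Run7/h994/PR/FM.lean` the sum of the `X(n, y)` is at least `(1 - η') H A N / (d log N)`. The number of
the `h ∈ inj k H` with all `F(n) + y + h_i` prime is `X (X - 1) ... (X - k + 1) ≥ max (X - k) 0 ^ k`; by the power mean inequality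
(`inner_le_nnorm_mul_nnorm`, or `Real.pow_arith_mean_le_arith_mean_pow`, `pow_sum_div_card_le_sum_pow`) the sum over the `N (A - H)` pairs is at least
`N (A - H) (m - k)^k`, where `m ≥ (1 - η') H / (d log N)` is the mean of `X`, and `k ≤ η' m` if `B` is large. -/
def S_FMK (F : ℤ[X]) (k : ℕ) : Prop := ∀ η : ℝ, 0 < η → ∃ c₀ B : ℝ, 0 < c₀ ∧ 0 < B ∧ ∀ ε : ℝ, 0 < ε → ∃ N₀ : ℕ,
  ∀ N : ℕ, N₀ ≤ N → ∀ A H : ℕ, (N : ℝ) ^ ((1 - lam F.natDegree) * (F.natDegree : ℝ) - 1 + ε) ≤ A →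
  (A : ℝ) ≤ c₀ * (N : ℝ) ^ (F.natDegree - 1) → B * Real.log N ≤ H → (H : ℝ) ≤ c₀ * A →
  (1 - η) * (A * (H : ℝ) ^ k * (N / (F.natDegree * Real.log N) ^ k)) ≤
    ∑ h ∈ inj k H, ∑ y ∈ Icc 1 (A - H), (Pk F (sh y h) N : ℝ)

end Run7.h462.KT
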