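import Pool.Agent.Run7.h462.KT.Stm

/-!
# Project KT: basic lemmas on the tuples
-/

set_option autoImplicit false

namespace Run7.h462.KT

open Finset Filter Topology
open Pool.Agent.H373R2.T7 (pz Vz mem_pz Vz_pos)
open Pool.Agent.TH204.WR (rho hh rho_le rho_le_deg')
open scoped Polynomial

variable {k : ℕ}

lemma eval_Q (F : ℤ[X]) (a : Fin k → ℕ) (x : ℤ) : (Q F a).eval x = ∏ i, (F.eval x + (a i : ℤ)) := by
  unfold Q
  rw [Polynomial.eval_prod]
  simp

lemma natDegree_Q_le (F : ℤ[X]) (a : Fin k → ℕ) : (Q F a).natDegree ≤ k * F.natDegree := by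
  unfold Q
  refine (Polynomial.natDegree_prod_le _ _).trans ?_
  calc ∑ i : Fin k, (F + Polynomial.C ((a i : ℕ) : ℤ)).natDegree = ∑ _i : Fin k, F.natDegree := by
        apply sum_congr rfl
        intro i _
        exact Polynomial.natDegree_add_C
    _ ≤ _ := by simp

lemma dvd_Q (F : ℤ[X]) (a : Fin k → ℕ) {p : ℕ} (hp : p.Prime) (x : ℤ) :
    (p : ℤ) ∣ (Q F a).eval x + 0 ↔ ∃ i, (p : ℤ) ∣ F.eval x + (a i : ℤ) := by
  rw [add_zero, eval_Q]
  have hp' : Prime (p : ℤ) := Nat.prime_iff_prime_int.1 hp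
  rw [Prime.dvd_finsetProd_iff hp']
  simp

lemma rk_eq_card (F : ℤ[X]) (a : Fin k → ℕ) {p : ℕ} (hp : p.Prime) :
    rk F a p = #((range p).filter (fun x : ℕ => ∃ i, (p : ℤ) ∣ F.eval (x : ℤ) + (a i : ℤ))) := by
  unfold rk rho
  congr 1
  apply filter_congr
  intro x _
  exact dvd_Q F a hp x

lemma rk_le (F : ℤ[X]) (a : Fin k → ℕ) (p : ℕ) : rk F a p ≤ p := rho_le _ _ _

lemma rk_le_sum (F : ℤ[X]) (a : Fin k → ℕ) {p : ℕ} (hp : p.Prime) : rk F a p ≤ ∑ i, rho F (a i : ℤ) p := by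
  classical
  rw [rk_eq_card F a hp]
  have h1 : (range p).filter (fun x : ℕ => ∃ i, (p : ℤ) ∣ F.eval (x : ℤ) + (a i : ℤ)) =
      univ.biUnion (fun i : Fin k => (range p).filter (fun x : ℕ => (p : ℤ) ∣ F.eval (x : ℤ) + (a i : ℤ))) := by
    ext x
    simp
  rw [h1]
  exact card_biUnion_le

lemma le_rk (F : ℤ[X]) (a : Fin k → ℕ) {p : ℕ} (hp : p.Prime) (i : Fin k) : rho F (a i : ℤ) p ≤ rk F a p := by
  rw [rk_eq_card F a hp]
  unfold rho
  apply card_le_card
  intro x hx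
  rw [mem_filter] at hx ⊢
  exact ⟨hx.1, i, hx.2⟩

lemma rk_le_deg (F : ℤ[X]) (a : Fin k → ℕ) {p : ℕ} (hp : p.Prime) (hd : 1 ≤ F.natDegree)
    (hl : F.leadingCoeff.natAbs < p) (hl0 : F.leadingCoeff ≠ 0) : rk F a p ≤ k * F.natDegree := by
  refine (rk_le_sum F a hp).trans ?_
  calc ∑ i : Fin k, rho F (a i : ℤ) p ≤ ∑ _i : Fin k, F.natDegree :=
        sum_le_sum fun i _ => rho_le_deg' F _ p hp hd hl hl0
    _ = _ := by simp

lemma rk_eq_sum (F : ℤ[X]) (a : Fin k → ℕ) {p : ℕ} (hp : p.Prime) (hov : ¬ ov a p) :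
    rk F a p = ∑ i, rho F (a i : ℤ) p := by
  classical
  rw [rk_eq_card F a hp]
  have h1 : (range p).filter (fun x : ℕ => ∃ i, (p : ℤ) ∣ F.eval (x : ℤ) + (a i : ℤ)) =
      univ.biUnion (fun i : Fin k => (range p).filter (fun x : ℕ => (p : ℤ) ∣ F.eval (x : ℤ) + (a i : ℤ))) := by
    ext x
    simp
  rw [h1, card_biUnion]
  · rfl
  · intro i _ j _ hij
    simp only [Function.onFun]
    rw [disjoint_left]
    intro x hx hy
    rw [mem_filter] at hx hy
    apply hov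
    refine ⟨i, j, hij, ?_⟩
    have h2 := dvd_sub hx.2 hy.2
    have h3 : F.eval (x : ℤ) + (a i : ℤ) - (F.eval (x : ℤ) + (a j : ℤ)) = (a i : ℤ) - a j := by ring
    rw [h3] at h2
    exact (Nat.modEq_iff_dvd.2 h2).symm

lemma one_sub_nonneg (F : ℤ[X]) (a : Fin k → ℕ) {p : ℕ} (hp : p.Prime) : 0 ≤ 1 - (rk F a p : ℝ) / p := by
  have hp0 : (0 : ℝ) < p := by exact_mod_cast hp.pos
  have h1 : (rk F a p : ℝ) ≤ p := by exact_mod_cast rk_le F a p
  rw [sub_nonneg, div_le_one hp0]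
  exact h1

lemma one_sub_le_one (F : ℤ[X]) (a : Fin k → ℕ) (p : ℕ) : 1 - (rk F a p : ℝ) / p ≤ 1 := by
  have : 0 ≤ (rk F a p : ℝ) / p := by positivity
  linarith

lemma prodk_nonneg (F : ℤ[X]) (a : Fin k → ℕ) (z : ℕ) : 0 ≤ ∏ p ∈ pz z, (1 - (rk F a p : ℝ) / p) :=
  prod_nonneg fun _ hp => one_sub_nonneg F a (mem_pz.1 hp).2

lemma gk_nonneg (F : ℤ[X]) (a : Fin k → ℕ) (z : ℕ) : 0 ≤ gk F a z := by
  unfold gk
  have := Vz_pos z
  have := prodk_nonneg F a z
  positivity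

lemma Vz_gk (F : ℤ[X]) (a : Fin k → ℕ) (z : ℕ) : Vz z ^ k * gk F a z = ∏ p ∈ pz z, (1 - (rk F a p : ℝ) / p) := by
  unfold gk
  rw [mul_div_assoc', mul_div_cancel_left₀ _ (pow_ne_zero _ (Vz_pos z).ne')]

lemma gk_eq_prod (F : ℤ[X]) (a : Fin k → ℕ) (z : ℕ) :
    gk F a z = ∏ p ∈ pz z, ((1 - (rk F a p : ℝ) / p) / (1 - 1 / (p : ℝ)) ^ k) := by
  unfold gk Vz
  rw [prod_div_distrib, prod_pow]

lemma rk_X (h : Fin k → ℕ) {p : ℕ} (hp : p.Prime) : rk (Polynomial.X : ℤ[X]) h p = #(univ.image (fun i => h i % p)) := by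
  classical
  rw [rk_eq_card _ h hp]
  have hp0 : 0 < p := hp.pos
  apply card_bij' (fun x _ => (p - x) % p) (fun y _ => (p - y) % p)
  · intro x hx
    rw [mem_filter, mem_range] at hx
    obtain ⟨hx1, i, hi⟩ := hx
    rw [Polynomial.eval_X] at hi
    rw [mem_image]
    refine ⟨i, mem_univ _, ?_⟩
    have h1 : p ∣ x + h i := by exact_mod_cast hi
    obtain ⟨c, hc⟩ := h1
    have h2 : (h i + (x + 0)) ≡ ((p - x) + (x + 0)) [MOD p] := by
      have e1 : h i + (x + 0) = p * c := by omega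
      have e2 : (p - x) + (x + 0) = p := by omega
      rw [e1, e2]
      exact (Nat.modEq_zero_iff_dvd.2 (dvd_mul_right _ _)).trans (Nat.modEq_zero_iff_dvd.2 dvd_rfl).symm
    exact Nat.ModEq.add_right_cancel' _ h2
  · intro y hy
    rw [mem_image] at hy
    obtain ⟨i, _, rfl⟩ := hy
    rw [mem_filter, mem_range]
    refine ⟨Nat.mod_lt _ hp0, i, ?_⟩
    rw [Polynomial.eval_X]
    have h0 := Nat.mod_lt (h i) hp0
    have h1 : p ∣ (p - h i % p) % p + h i := by
      have h2 : (p - h i % p) % p + h i ≡ (p - h i % p) + h i % p [MOD p] :=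
        Nat.ModEq.add (Nat.mod_modEq _ _) (Nat.mod_modEq _ _).symm
      have e2 : (p - h i % p) + h i % p = p := by omega
      rw [e2] at h2
      exact Nat.modEq_zero_iff_dvd.1 (h2.trans (Nat.modEq_zero_iff_dvd.2 dvd_rfl))
    exact_mod_cast h1
  · intro x hx
    rw [mem_filter, mem_range] at hx
    rcases Nat.eq_zero_or_pos x with h0 | h0
    · subst h0
      simp
    · have h1 : (p - x) % p = p - x := Nat.mod_eq_of_lt (by omega)
      rw [h1]
      have h2 : p - (p - x) = x := by omega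
      rw [h2]
      exact Nat.mod_eq_of_lt hx.1
  · intro y hy
    rw [mem_image] at hy
    obtain ⟨i, _, rfl⟩ := hy
    have hlt := Nat.mod_lt (h i) hp0
    rcases Nat.eq_zero_or_pos (h i % p) with h0 | h0
    · rw [h0]
      simp
    · have h1 : (p - h i % p) % p = p - h i % p := Nat.mod_eq_of_lt (by omega)
      rw [h1]
      have h2 : p - (p - h i % p) = h i % p := by omega
      rw [h2]
      exact Nat.mod_eq_of_lt hlt

lemma rk_X_le (h : Fin k → ℕ) {p : ℕ} (hp : p.Prime) : rk (Polynomial.X : ℤ[X]) h p ≤ k := by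
  classical
  rw [rk_X h hp]
  refine card_image_le.trans ?_
  simp

lemma rk_X_pos (hk : 1 ≤ k) (h : Fin k → ℕ) {p : ℕ} (hp : p.Prime) : 1 ≤ rk (Polynomial.X : ℤ[X]) h p := by
  classical
  rw [rk_X h hp, Nat.succ_le_iff, card_pos]
  exact ⟨h ⟨0, hk⟩ % p, mem_image.2 ⟨_, mem_univ _, rfl⟩⟩

lemma rk_X_eq (h : Fin k → ℕ) {p : ℕ} (hp : p.Prime) (hov : ¬ ov h p) : rk (Polynomial.X : ℤ[X]) h p = k := by
  classical
  rw [rk_X h hp, card_image_of_injective]
  · simp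
  · intro i j hij
    by_contra hne
    exact hov ⟨i, j, hne, hij⟩

/-- the mean over the shifts -/
lemma sum_rk_sh (F : ℤ[X]) (h : Fin k → ℕ) {p : ℕ} (hp : p.Prime) :
    ∑ y ∈ range p, rk F (sh y h) p = p * rk (Polynomial.X : ℤ[X]) h p := by
  classical
  have hp0 : 0 < p := hp.pos
  have h1 : ∀ y ∈ range p, rk F (sh y h) p =
      ∑ x ∈ range p, if (∃ i, (p : ℤ) ∣ F.eval (x : ℤ) + ((sh y h i : ℕ) : ℤ)) then 1 else 0 := by
    intro y _
    rw [rk_eq_card _ _ hp, card_filter]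
  rw [sum_congr rfl h1, sum_comm]
  have h2 : ∀ x ∈ range p, (∑ y ∈ range p, if (∃ i, (p : ℤ) ∣ F.eval (x : ℤ) + ((sh y h i : ℕ) : ℤ)) then 1 else 0) =
      rk (Polynomial.X : ℤ[X]) h p := by
    intro x _
    rw [← card_filter, rk_eq_card _ _ hp]
    -- translate by `F(x)`
    have hm0 := Int.emod_nonneg (F.eval (x : ℤ)) (show (p : ℤ) ≠ 0 by exact_mod_cast hp0.ne')
    have hm1 := Int.emod_lt_of_pos (F.eval (x : ℤ)) (show (0 : ℤ) < p by exact_mod_cast hp0)
    obtain ⟨m, hm⟩ : ∃ m : ℕ, (m : ℤ) = F.eval (x : ℤ) % p := ⟨(F.eval (x : ℤ) % p).toNat, Int.toNat_of_nonneg hm0⟩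
    have hmp : m < p := by
      rw [← hm] at hm1
      exact_mod_cast hm1
    have hdm : (p : ℤ) ∣ F.eval (x : ℤ) - m := by
      rw [hm]
      exact Int.dvd_self_sub_emod
    have key : ∀ (y : ℕ) (i : Fin k), ((p : ℤ) ∣ F.eval (x : ℤ) + ((sh y h i : ℕ) : ℤ)) ↔ (p : ℤ) ∣ ((m + y : ℕ) : ℤ) + (h i : ℤ) := by
      intro y i
      have e1 : F.eval (x : ℤ) + ((sh y h i : ℕ) : ℤ) = (F.eval (x : ℤ) - m) + (((m + y : ℕ) : ℤ) + (h i : ℤ)) := by
        unfold sh
        push_cast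
        ring
      rw [e1]
      exact (Int.dvd_add_right hdm)
    simp only [key, Polynomial.eval_X]
    apply card_bij' (fun y _ => (m + y) % p) (fun z _ => (z + (p - m)) % p)
    · intro y hy
      rw [mem_filter, mem_range] at hy ⊢
      refine ⟨Nat.mod_lt _ hp0, ?_⟩
      obtain ⟨i, hi⟩ := hy.2
      refine ⟨i, ?_⟩
      have h3 : p ∣ (m + y) + h i := by exact_mod_cast hi
      have h4 : (m + y) % p + h i ≡ (m + y) + h i [MOD p] := Nat.ModEq.add_right _ (Nat.mod_modEq _ _)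
      have h5 : p ∣ (m + y) % p + h i := Nat.modEq_zero_iff_dvd.1 (h4.trans (Nat.modEq_zero_iff_dvd.2 h3))
      exact_mod_cast h5
    · intro z hz
      rw [mem_filter, mem_range] at hz ⊢
      refine ⟨Nat.mod_lt _ hp0, ?_⟩
      obtain ⟨i, hi⟩ := hz.2
      refine ⟨i, ?_⟩
      have h3 : p ∣ z + h i := by exact_mod_cast hi
      have h4 : (m + (z + (p - m)) % p) + h i ≡ z + h i [MOD p] := by
        have h5 : m + (z + (p - m)) % p ≡ m + (z + (p - m)) [MOD p] := Nat.ModEq.add_left _ (Nat.mod_modEq _ _)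
        have h6 : m + (z + (p - m)) = z + p := by omega
        rw [h6] at h5
        have h7 : z + p ≡ z [MOD p] := by simp [Nat.ModEq]
        exact Nat.ModEq.add_right _ (h5.trans h7)
      have h5 : p ∣ (m + (z + (p - m)) % p) + h i := Nat.modEq_zero_iff_dvd.1 (h4.trans (Nat.modEq_zero_iff_dvd.2 h3))
      exact_mod_cast h5
    · intro y hy
      rw [mem_filter, mem_range] at hy
      have h5 : (m + y) % p + (p - m) ≡ (m + y) + (p - m) [MOD p] := Nat.ModEq.add_right _ (Nat.mod_modEq _ _)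
      have h6 : (m + y) + (p - m) = y + p := by omega
      rw [h6] at h5
      have h7 : y + p ≡ y [MOD p] := by simp [Nat.ModEq]
      have h8 := h5.trans h7
      unfold Nat.ModEq at h8
      rw [h8]
      exact Nat.mod_eq_of_lt hy.1
    · intro z hz
      rw [mem_filter, mem_range] at hz
      have h5 : m + (z + (p - m)) % p ≡ m + (z + (p - m)) [MOD p] := Nat.ModEq.add_left _ (Nat.mod_modEq _ _)
      have h6 : m + (z + (p - m)) = z + p := by omega
      rw [h6] at h5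
      have h7 : z + p ≡ z [MOD p] := by simp [Nat.ModEq]
      have h8 := h5.trans h7
      unfold Nat.ModEq at h8
      rw [h8]
      exact Nat.mod_eq_of_lt hz.1
  rw [sum_congr rfl h2, sum_const, card_range, smul_eq_mul]

lemma mem_inj {H : ℕ} {h : Fin k → ℕ} : h ∈ inj k H ↔ (∀ i, h i < H) ∧ Function.Injective h := by
  unfold inj
  rw [mem_filter, Fintype.mem_piFinset]
  simp

lemma card_inj_le (k H : ℕ) : #(inj k H) ≤ H ^ k := by
  unfold inj
  refine (card_filter_le _ _).trans ?_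
  rw [Fintype.card_piFinset]
  simp

lemma Pk_le (F : ℤ[X]) (a : Fin k → ℕ) (N : ℕ) : (Pk F a N : ℝ) ≤ N := by
  unfold Pk
  have := card_filter_le (Icc 1 N) (fun n : ℕ => ∀ i, Nat.Prime (F.eval (n : ℤ) + a i).toNat)
  rw [Nat.card_Icc, Nat.add_sub_cancel] at this
  exact_mod_cast this

lemma sh_injective {y : ℕ} {h : Fin k → ℕ} (hh : Function.Injective h) : Function.Injective (sh y h) := by
  intro i j hij
  unfold sh at hij
  exact hh (by omega)

lemma ov_sh (y : ℕ) (h : Fin k → ℕ) (p : ℕ) : ov (sh y h) p ↔ ov h p := by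
  unfold ov sh
  constructor
  · rintro ⟨i, j, hij, h1⟩
    exact ⟨i, j, hij, Nat.ModEq.add_left_cancel' _ h1⟩
  · rintro ⟨i, j, hij, h1⟩
    exact ⟨i, j, hij, Nat.ModEq.add_left _ h1⟩

end Run7.h462.KT
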