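import Pool.Agent.Run7.h462.KT.Bas
import Pool.Agent.Run7.h994.PR.FM

/-!
# Project KT, piece FMK: the lower bound for the tuples on average

The first moment over the windows follows `Pool/Agent/Run7/h994/PR/FM.lean`.
-/

set_option autoImplicit false

namespace Run7.h462.KT

open Finset Filter Topology
open Run7.h462.BPG (lam lam_le_quarter)
open Run7.h994.PR (fi fi_nonneg fi_le_one P_eq window_one sum_P_le)
open scoped Polynomial

/-- the sum of the numbers of the primes over all windows -/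
lemma windows {F : ℤ[X]} (h2 : 2 ≤ F.natDegree) (hFM : Run7.h462.BPG.S_FM F) : ∀ η : ℝ, 0 < η → η < 1 →
    ∃ c₀ : ℝ, 0 < c₀ ∧ c₀ ≤ 1 / 2 ∧ ∀ ε : ℝ, 0 < ε → ∃ N₀ : ℕ, ∀ N : ℕ, N₀ ≤ N → ∀ A H : ℕ,
    (N : ℝ) ^ ((1 - lam F.natDegree) * (F.natDegree : ℝ) - 1 + ε) ≤ A → (A : ℝ) ≤ c₀ * (N : ℝ) ^ (F.natDegree - 1) →
    (H : ℝ) ≤ c₀ * A →
    H * ((A * N / (F.natDegree * Real.log N)) * (1 - η)) ≤
      ∑ n ∈ Icc 1 N, ∑ y ∈ Icc 1 (A - H), ∑ j ∈ range H, fi F n (y + j) := by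
  intro η hη hη1
  obtain ⟨C, hC, NB, hB⟩ := sum_P_le F
  obtain ⟨d, hd⟩ : ∃ d : ℝ, d = F.natDegree := ⟨_, rfl⟩
  have hd2 : 2 ≤ d := by rw [hd]; exact_mod_cast h2
  have hd0 : 0 < d := by linarith
  obtain ⟨lm, hlm⟩ : ∃ lm : ℝ, lm = lam F.natDegree := ⟨_, rfl⟩
  have hlm4 : lm ≤ 1 / 4 := by rw [hlm]; exact lam_le_quarter _
  obtain ⟨c₁, hc₁, hF⟩ := hFM (η / 12) (by positivity)
  obtain ⟨c₀, hc₀⟩ : ∃ c₀, c₀ = min c₁ (min (η / 12) (η / (24 * d * C))) := ⟨_, rfl⟩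
  have hc₀0 : 0 < c₀ := by
    rw [hc₀]
    refine lt_min hc₁ (lt_min (by positivity) (by positivity))
  have hc₀1 : c₀ ≤ c₁ := by rw [hc₀]; exact min_le_left _ _
  have hc₀2 : c₀ ≤ η / 12 := by rw [hc₀]; exact (min_le_right _ _).trans (min_le_left _ _)
  have hc₀3 : c₀ ≤ η / (24 * d * C) := by rw [hc₀]; exact (min_le_right _ _).trans (min_le_right _ _)
  refine ⟨c₀, hc₀0, by linarith, fun ε hε => ?_⟩
  obtain ⟨NF, hNF⟩ := hF (ε / 2) (by positivity)
  have tend : ∀ a : ℝ, 0 < a → Tendsto (fun X : ℕ => (X : ℝ) ^ a) atTop atTop := fun a ha =>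
    (tendsto_rpow_atTop ha).comp tendsto_natCast_atTop_atTop
  have ev1 : ∀ᶠ N : ℕ in atTop, (2 : ℝ) ≤ (N : ℝ) ^ (ε / 2) := (tend _ (by positivity)).eventually_ge_atTop _
  have ev2 : ∀ᶠ N : ℕ in atTop, 24 * d / η ≤ Real.log N :=
    (Real.tendsto_log_atTop.comp tendsto_natCast_atTop_atTop).eventually_ge_atTop _
  have ev3 : ∀ᶠ N : ℕ in atTop, Real.log N ^ 2 ≤ (N : ℝ) ^ (1 / 4 : ℝ) := by
    have h := isLittleO_log_rpow_atTop (show (0 : ℝ) < 1 / 8 by norm_num)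
    have h2 := h.bound one_pos
    have h3 := tendsto_natCast_atTop_atTop.eventually (h2.and (eventually_ge_atTop (1 : ℝ)))
    filter_upwards [h3] with N hN
    obtain ⟨g1, g2⟩ := hN
    have g3 : 0 ≤ Real.log (N : ℝ) := Real.log_nonneg g2
    rw [one_mul, Real.norm_of_nonneg g3, Real.norm_of_nonneg (by positivity)] at g1
    calc Real.log N ^ 2 ≤ ((N : ℝ) ^ (1 / 8 : ℝ)) ^ 2 := by gcongr
      _ = (N : ℝ) ^ (1 / 4 : ℝ) := by
          rw [← Real.rpow_natCast, ← Real.rpow_mul (by linarith)]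
          norm_num
  obtain ⟨N₀, hN₀⟩ := eventually_atTop.mp (ev1.and (ev2.and ev3))
  refine ⟨N₀ + NF + NB + 2, fun N hN A H hA1 hA2 hH2 => ?_⟩
  obtain ⟨g1, g2, g3⟩ := hN₀ N (by omega)
  rw [← hd, ← hlm] at hA1
  rw [← hd]
  have hNr : (2 : ℝ) ≤ N := by exact_mod_cast (show 2 ≤ N by omega)
  have hN1 : (1 : ℝ) ≤ N := by linarith
  have hN0 : (0 : ℝ) < N := by linarith
  obtain ⟨L, hL⟩ : ∃ L, L = Real.log N := ⟨_, rfl⟩
  rw [← hL] at g2 g3 ⊢
  have hL0 : 0 < L := by rw [hL]; exact Real.log_pos (by linarith)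
  have hA0 : (0 : ℝ) < A := lt_of_lt_of_le (Real.rpow_pos_of_pos hN0 _) hA1
  have he : 1 / 2 ≤ (1 - lm) * d - 1 := by
    have h1 : 3 / 4 * 2 ≤ (1 - lm) * d := by
      apply mul_le_mul (by linarith) hd2 (by norm_num) (by linarith)
    linarith
  have hAhalf : (N : ℝ) ^ (1 / 2 : ℝ) ≤ A := by
    refine le_trans ?_ hA1
    apply Real.rpow_le_rpow_of_exponent_le hN1
    linarith
  have hH0 : (0 : ℝ) ≤ H := Nat.cast_nonneg _
  have hHA : (H : ℝ) ≤ η / 12 * A := hH2.trans (by gcongr)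
  have hHA1 : (H : ℝ) ≤ A := by nlinarith
  have hHAn : H ≤ A := by exact_mod_cast hHA1
  -- Y
  obtain ⟨Y, hY⟩ : ∃ Y, Y = A - H := ⟨_, rfl⟩
  have hYr : (Y : ℝ) = A - H := by rw [hY, Nat.cast_sub hHAn]
  have hYlow : (1 - η / 12) * A ≤ Y := by rw [hYr]; linarith
  have hY2 : (N : ℝ) ^ ((1 - lm) * d - 1 + ε / 2) ≤ Y := by
    have h3 : (N : ℝ) ^ ((1 - lm) * d - 1 + ε / 2) * (N : ℝ) ^ (ε / 2) ≤ A := by
      rw [← Real.rpow_add hN0]
      refine le_trans (le_of_eq ?_) hA1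
      congr 1
      ring
    have h4 : (N : ℝ) ^ ((1 - lm) * d - 1 + ε / 2) * 2 ≤ A := by
      refine le_trans ?_ h3
      gcongr
    have h5 : (1 / 2 : ℝ) * A ≤ (1 - η / 12) * A := by
      apply mul_le_mul_of_nonneg_right _ hA0.le
      linarith
    linarith
  have hY3 : (Y : ℝ) ≤ c₁ * (N : ℝ) ^ (F.natDegree - 1) := by
    have h3 : (Y : ℝ) ≤ A := by rw [hYr]; linarith
    refine h3.trans (hA2.trans ?_)
    gcongr
  have hFY := hNF N (by omega) Y (by rw [← hd, ← hlm]; exact hY2) hY3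
  rw [← hd, ← hL] at hFY
  obtain ⟨U, hU⟩ : ∃ U, U = A * N / (d * L) := ⟨_, rfl⟩
  rw [← hU]
  have hU0 : 0 < U := by rw [hU]; positivity
  have hPH : ∑ a ∈ Icc 1 H, (Run7.h462.BPD.P F a N : ℝ) ≤ η / 24 * U := by
    rcases le_total (H : ℝ) (A / L ^ 2) with h | h
    · calc ∑ a ∈ Icc 1 H, (Run7.h462.BPD.P F a N : ℝ) ≤ ∑ a ∈ Icc 1 H, (N : ℝ) := by
            apply Finset.sum_le_sum
            intro a _
            rw [P_eq]
            calc ∑ n ∈ Icc 1 N, fi F n a ≤ ∑ n ∈ Icc 1 N, (1 : ℝ) :=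
                  Finset.sum_le_sum fun n _ => fi_le_one F n a
              _ = N := by simp
        _ = H * N := by rw [Finset.sum_const, Nat.card_Icc, nsmul_eq_mul, Nat.add_sub_cancel]
        _ ≤ (A / L ^ 2) * N := by gcongr
        _ = (d / L) * U := by rw [hU]; field_simp
        _ ≤ η / 24 * U := by
            apply mul_le_mul_of_nonneg_right _ hU0.le
            rw [div_le_iff₀ hL0]
            rw [div_le_iff₀ hη] at g2
            linarith
    · have hH14 : (N : ℝ) ^ (1 / 4 : ℝ) ≤ H := by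
        refine le_trans ?_ h
        rw [le_div_iff₀ (by positivity)]
        calc (N : ℝ) ^ (1 / 4 : ℝ) * L ^ 2 ≤ (N : ℝ) ^ (1 / 4 : ℝ) * (N : ℝ) ^ (1 / 4 : ℝ) := by gcongr
          _ = (N : ℝ) ^ (1 / 2 : ℝ) := by rw [← Real.rpow_add hN0]; norm_num
          _ ≤ A := hAhalf
      have h3 := hB N (by omega) H hH14
      rw [← hL] at h3
      calc ∑ a ∈ Icc 1 H, (Run7.h462.BPD.P F a N : ℝ) ≤ C * (N * H / L) := h3
        _ ≤ C * (N * (c₀ * A) / L) := by gcongr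
        _ = (c₀ * (d * C)) * U := by rw [hU]; field_simp
        _ ≤ η / 24 * U := by
            apply mul_le_mul_of_nonneg_right _ hU0.le
            calc c₀ * (d * C) ≤ (η / (24 * d * C)) * (d * C) := by gcongr
              _ = η / 24 := by field_simp
  have hPY : (1 - η / 6) * U ≤ ∑ a ∈ Icc 1 Y, (Run7.h462.BPD.P F a N : ℝ) := by
    refine le_trans ?_ hFY
    have h3 : (1 - η / 12) * U ≤ Y * N / (d * L) := by
      rw [hU]
      calc (1 - η / 12) * (A * N / (d * L)) = ((1 - η / 12) * A) * N / (d * L) := by ring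
        _ ≤ Y * N / (d * L) := by gcongr
    calc (1 - η / 6) * U ≤ (1 - η / 12) * ((1 - η / 12) * U) := by
          have h6 : 0 ≤ η ^ 2 / 144 * U := by positivity
          have h7 : (1 - η / 12) * ((1 - η / 12) * U) = (1 - η / 6) * U + η ^ 2 / 144 * U := by ring
          linarith
      _ ≤ (1 - η / 12) * (Y * N / (d * L)) := by
          apply mul_le_mul_of_nonneg_left h3
          linarith
  have hshift : ∀ n : ℕ, ∑ y ∈ Icc 1 Y, ∑ j ∈ range H, fi F n (y + j) =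
      ∑ y ∈ range Y, ∑ j ∈ range H, fi F n (y + 1 + j) := by
    intro n
    apply Finset.sum_nbij' (fun y => y - 1) (fun y => y + 1)
    · intro y hy
      rw [mem_Icc] at hy
      rw [mem_range]
      omega
    · intro y hy
      rw [mem_range] at hy
      rw [mem_Icc]
      omega
    · intro y hy
      rw [mem_Icc] at hy
      omega
    · intro y hy
      simp
    · intro y hy
      rw [mem_Icc] at hy
      have e : y - 1 + 1 = y := by omega
      rw [e]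
  have h3 : ∑ n ∈ Icc 1 N, (H : ℝ) * (∑ a ∈ Icc 1 Y, fi F n a - ∑ a ∈ Icc 1 H, fi F n a) ≤
      ∑ n ∈ Icc 1 N, ∑ y ∈ Icc 1 Y, ∑ j ∈ range H, fi F n (y + j) := by
    apply Finset.sum_le_sum
    intro n _
    rw [hshift]
    exact window_one (fi F n) (fi_nonneg F n) Y H
  rw [← hY]
  refine le_trans ?_ h3
  rw [← Finset.mul_sum, Finset.sum_sub_distrib]
  apply mul_le_mul_of_nonneg_left _ hH0
  have e1 : ∑ n ∈ Icc 1 N, ∑ a ∈ Icc 1 Y, fi F n a = ∑ a ∈ Icc 1 Y, (Run7.h462.BPD.P F a N : ℝ) := by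
    rw [Finset.sum_comm]
    exact Finset.sum_congr rfl fun a _ => (P_eq F a N).symm
  have e2 : ∑ n ∈ Icc 1 N, ∑ a ∈ Icc 1 H, fi F n a = ∑ a ∈ Icc 1 H, (Run7.h462.BPD.P F a N : ℝ) := by
    rw [Finset.sum_comm]
    exact Finset.sum_congr rfl fun a _ => (P_eq F a N).symm
  rw [e1, e2]
  nlinarith

variable {k : ℕ}

open Classical in
/-- the number of the injective tuples in a set -/
lemma card_inj_ge (k H : ℕ) (S : Finset ℕ) (hS : S ⊆ range H) :
    (#S + 1 - k) ^ k ≤ #((inj k H).filter (fun h => ∀ i, h i ∈ S)) := by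
  have h1 : Fintype.card (Fin k ↪ S) = (#S).descFactorial k := by
    rw [Fintype.card_embedding_eq, Fintype.card_fin, Fintype.card_coe]
  refine (Nat.pow_sub_le_descFactorial (#S) k).trans ?_
  rw [← h1, ← card_univ]
  apply Finset.card_le_card_of_injOn (fun φ : Fin k ↪ S => fun i => ((φ i : S) : ℕ))
  · intro φ _
    rw [mem_coe, mem_filter, mem_inj]
    refine ⟨⟨fun i => mem_range.1 (hS (φ i).2), ?_⟩, fun i => (φ i).2⟩
    intro i j hij
    exact φ.injective (Subtype.ext hij)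
  · intro φ _ ψ _ h
    ext i
    exact congrFun h i

open Classical in
lemma window_lower (F : ℤ[X]) (k n y H : ℕ) :
    max ((∑ j ∈ range H, fi F n (y + j)) - k) 0 ^ k ≤
      (#((inj k H).filter (fun h => ∀ i, Nat.Prime (F.eval (n : ℤ) + sh y h i).toNat)) : ℝ) := by
  obtain ⟨S, hS⟩ : ∃ S : Finset ℕ, S = (range H).filter (fun j => Nat.Prime (F.eval (n : ℤ) + ((y + j : ℕ) : ℤ)).toNat) :=
    ⟨_, rfl⟩
  have h1 : ∑ j ∈ range H, fi F n (y + j) = #S := by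
    rw [hS, card_filter]
    push_cast
    unfold fi
    rfl
  rw [h1]
  have h2 := card_inj_ge k H S (by rw [hS]; exact filter_subset _ _)
  have h3 : (inj k H).filter (fun h => ∀ i, h i ∈ S) =
      (inj k H).filter (fun h => ∀ i, Nat.Prime (F.eval (n : ℤ) + sh y h i).toNat) := by
    apply filter_congr
    intro h hh
    have h4 := (mem_inj.1 hh).1
    constructor
    · intro h5 i
      have h6 := h5 i
      rw [hS, mem_filter] at h6
      exact h6.2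
    · intro h5 i
      rw [hS, mem_filter, mem_range]
      exact ⟨h4 i, h5 i⟩
  rw [h3] at h2
  have h4 : ((#S + 1 - k : ℕ) : ℝ) ^ k ≤
      (#((inj k H).filter (fun h => ∀ i, Nat.Prime (F.eval (n : ℤ) + sh y h i).toNat)) : ℝ) := by exact_mod_cast h2
  refine le_trans ?_ h4
  apply pow_le_pow_left₀ (le_max_right _ _)
  apply max_le
  · rcases le_total k #S with h | h
    · have h5 : ((#S + 1 - k : ℕ) : ℝ) = (#S : ℝ) + 1 - k := by
        rw [Nat.cast_sub (by omega)]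
        push_cast
        ring
      rw [h5]
      linarith
    · have h5 : (#S : ℝ) ≤ k := by exact_mod_cast h
      have h6 : (0 : ℝ) ≤ ((#S + 1 - k : ℕ) : ℝ) := Nat.cast_nonneg _
      linarith
  · exact Nat.cast_nonneg _

lemma swap (F : ℤ[X]) (k N A H : ℕ) :
    ∑ h ∈ inj k H, ∑ y ∈ Icc 1 (A - H), (Pk F (sh y h) N : ℝ) =
      ∑ n ∈ Icc 1 N, ∑ y ∈ Icc 1 (A - H),
        (#((inj k H).filter (fun h => ∀ i, Nat.Prime (F.eval (n : ℤ) + sh y h i).toNat)) : ℝ) := by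
  classical
  have h1 : ∀ (h : Fin k → ℕ) (y : ℕ), (Pk F (sh y h) N : ℝ) =
      ∑ n ∈ Icc 1 N, if (∀ i, Nat.Prime (F.eval (n : ℤ) + sh y h i).toNat) then (1 : ℝ) else 0 := by
    intro h y
    unfold Pk
    rw [card_filter]
    push_cast
    rfl
  have h2 : ∀ (n y : ℕ), (#((inj k H).filter (fun h => ∀ i, Nat.Prime (F.eval (n : ℤ) + sh y h i).toNat)) : ℝ) =
      ∑ h ∈ inj k H, if (∀ i, Nat.Prime (F.eval (n : ℤ) + sh y h i).toNat) then (1 : ℝ) else 0 := by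
    intro n y
    rw [card_filter]
    push_cast
    rfl
  simp only [h1, h2]
  calc ∑ h ∈ inj k H, ∑ y ∈ Icc 1 (A - H), ∑ n ∈ Icc 1 N,
        (if (∀ i, Nat.Prime (F.eval (n : ℤ) + sh y h i).toNat) then (1 : ℝ) else 0) =
      ∑ h ∈ inj k H, ∑ n ∈ Icc 1 N, ∑ y ∈ Icc 1 (A - H),
        (if (∀ i, Nat.Prime (F.eval (n : ℤ) + sh y h i).toNat) then (1 : ℝ) else 0) := by
        apply sum_congr rfl
        intro h _
        rw [Finset.sum_comm]
    _ = ∑ n ∈ Icc 1 N, ∑ h ∈ inj k H, ∑ y ∈ Icc 1 (A - H),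
        (if (∀ i, Nat.Prime (F.eval (n : ℤ) + sh y h i).toNat) then (1 : ℝ) else 0) := by
        rw [Finset.sum_comm]
    _ = _ := by
        apply sum_congr rfl
        intro n _
        rw [Finset.sum_comm]

theorem fmk (F : ℤ[X]) (k : ℕ) (hk : 1 ≤ k) (h2 : 2 ≤ F.natDegree) (hFM : Run7.h462.BPG.S_FM F) : S_FMK F k := by
  intro η0 hη0
  obtain ⟨d, hd⟩ : ∃ d : ℝ, d = F.natDegree := ⟨_, rfl⟩
  have hd2 : 2 ≤ d := by rw [hd]; exact_mod_cast h2
  have hd0 : 0 < d := by linarith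
  have hk1 : (1 : ℝ) ≤ k := by exact_mod_cast hk
  obtain ⟨ρ, hρ⟩ : ∃ ρ : ℝ, ρ = min η0 1 / (4 * k) := ⟨_, rfl⟩
  have hm0 : 0 < min η0 1 := lt_min hη0 one_pos
  have hρ0 : 0 < ρ := by rw [hρ]; positivity
  have hρk : k * (4 * ρ) ≤ η0 := by
    have : k * (4 * ρ) = min η0 1 := by
      rw [hρ]
      field_simp
    rw [this]
    exact min_le_left _ _
  have hρ1 : ρ ≤ 1 / 4 := by
    have h1 : k * (4 * ρ) = min η0 1 := by
      rw [hρ]
      field_simp
    have h3 : min η0 1 ≤ 1 := min_le_right _ _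
    have h4 : 1 * (4 * ρ) ≤ k * (4 * ρ) := by gcongr
    linarith
  obtain ⟨c₀, hc₀, hc₀1, hW⟩ := windows h2 hFM ρ hρ0 (by linarith)
  refine ⟨c₀, k * d / ρ, hc₀, by positivity, fun ε hε => ?_⟩
  obtain ⟨N₀, hW⟩ := hW ε hε
  refine ⟨N₀ + 2, fun N hN A H hA1 hA2 hH1 hH2 => ?_⟩
  have hW' := hW N (by omega) A H hA1 hA2 hH2
  have hNr : (2 : ℝ) ≤ N := by exact_mod_cast (show 2 ≤ N by omega)
  have hN0 : (0 : ℝ) < N := by linarith
  obtain ⟨L, hL⟩ : ∃ L, L = Real.log N := ⟨_, rfl⟩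
  have hL0 : 0 < L := by rw [hL]; exact Real.log_pos (by linarith)
  have hA0 : (0 : ℝ) < A := lt_of_lt_of_le (Real.rpow_pos_of_pos hN0 _) hA1
  rw [← hd, ← hL] at hW' ⊢
  rw [← hL] at hH1
  have hH0 : (0 : ℝ) < H := lt_of_lt_of_le (by positivity) hH1
  rw [swap]
  obtain ⟨Xf, hXf⟩ : ∃ Xf : ℕ × ℕ → ℝ, Xf = fun q => ∑ j ∈ range H, fi F q.1 (q.2 + j) := ⟨_, rfl⟩
  obtain ⟨gf, hgf⟩ : ∃ gf : ℕ × ℕ → ℝ, gf = fun q => max (Xf q - k) 0 := ⟨_, rfl⟩
  obtain ⟨S, hS⟩ : ∃ S : Finset (ℕ × ℕ), S = Icc 1 N ×ˢ Icc 1 (A - H) := ⟨_, rfl⟩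
  have hHA : H ≤ A := by
    have : (H : ℝ) ≤ A := by nlinarith
    exact_mod_cast this
  have hScard : (#S : ℝ) ≤ N * A := by
    rw [hS, card_product, Nat.card_Icc, Nat.card_Icc, Nat.add_sub_cancel, Nat.add_sub_cancel]
    push_cast
    have h1 : ((A - H : ℕ) : ℝ) ≤ A := by exact_mod_cast Nat.sub_le A H
    gcongr
  obtain ⟨U, hU⟩ : ∃ U, U = A * N / (d * L) := ⟨_, rfl⟩
  rw [← hU] at hW'
  have hU0 : 0 < U := by rw [hU]; positivity
  have hsum1 : ∑ q ∈ S, Xf q = ∑ n ∈ Icc 1 N, ∑ y ∈ Icc 1 (A - H), ∑ j ∈ range H, fi F n (y + j) := by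
    rw [hS, sum_product, hXf]
  have hsum2 : (1 - 2 * ρ) * (H * U) ≤ ∑ q ∈ S, gf q := by
    have h1 : ∑ q ∈ S, (Xf q - k) ≤ ∑ q ∈ S, gf q := by
      apply sum_le_sum
      intro q _
      rw [hgf]
      exact le_max_left _ _
    refine le_trans ?_ h1
    rw [sum_sub_distrib, hsum1, sum_const, nsmul_eq_mul]
    have h3 : (#S : ℝ) * k ≤ ρ * (H * U) := by
      have h4 : (k : ℝ) * (d * L) ≤ ρ * H := by
        rw [div_mul_eq_mul_div, div_le_iff₀ hρ0] at hH1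
        linarith
      calc (#S : ℝ) * k ≤ (N * A) * k := by gcongr
        _ = (k * (d * L)) * U := by
            rw [hU]
            field_simp
        _ ≤ (ρ * H) * U := by gcongr
        _ = _ := by ring
    nlinarith
  have hSpos : 0 < (#S : ℝ) := by
    by_contra hcon
    push Not at hcon
    have h1 : #S = 0 := by
      have : (#S : ℝ) = 0 := le_antisymm hcon (Nat.cast_nonneg _)
      exact_mod_cast this
    rw [card_eq_zero] at h1
    rw [h1, sum_empty] at hsum2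
    have : 0 < (1 - 2 * ρ) * (H * U) := by
      apply mul_pos (by linarith)
      positivity
    linarith
  have hpm := pow_sum_div_card_le_sum_pow (s := S) (f := gf) (fun q _ => by rw [hgf]; exact le_max_right _ _) (k - 1)
  have hk' : k - 1 + 1 = k := by omega
  rw [hk'] at hpm
  have hfinal : ∑ q ∈ S, gf q ^ k ≤ ∑ n ∈ Icc 1 N, ∑ y ∈ Icc 1 (A - H),
        (#((inj k H).filter (fun h => ∀ i, Nat.Prime (F.eval (n : ℤ) + sh y h i).toNat)) : ℝ) := by
    rw [hS, sum_product]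
    apply sum_le_sum
    intro n _
    apply sum_le_sum
    intro y _
    rw [hgf, hXf]
    have := window_lower F k n y H
    convert this using 3
  refine le_trans ?_ (hpm.trans hfinal)
  rw [le_div_iff₀ (by positivity)]
  have h5 : (1 - η0) ≤ (1 - 2 * ρ) ^ k := by
    have h6 := one_add_mul_le_pow (a := -(2 * ρ)) (by linarith) k
    have h7 : 1 + (k : ℝ) * -(2 * ρ) = 1 - k * (2 * ρ) := by ring
    have h8 : 1 + -(2 * ρ) = 1 - 2 * ρ := by ring
    rw [h7, h8] at h6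
    have h9 : 0 ≤ k * (2 * ρ) := by positivity
    have h10 : k * (4 * ρ) = 2 * (k * (2 * ρ)) := by ring
    linarith
  have h12 : 0 ≤ 1 - 2 * ρ := by linarith
  have h11 : ((1 - 2 * ρ) * (H * U)) ^ k ≤ (∑ q ∈ S, gf q) ^ k := by
    apply pow_le_pow_left₀ _ hsum2
    positivity
  refine le_trans ?_ h11
  have hUk : U ^ k = (A * (N / (d * L) ^ k)) * (N * A) ^ (k - 1) := by
    have e1 : ((N : ℝ) * A) ^ k = (N * A) * (N * A) ^ (k - 1) := by
      rw [← pow_succ', hk']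
    rw [hU, div_pow, mul_comm (A : ℝ) N, e1]
    field_simp
  calc (1 - η0) * (A * (H : ℝ) ^ k * (N / (d * L) ^ k)) * (#S : ℝ) ^ (k - 1)
      ≤ (1 - 2 * ρ) ^ k * (A * (H : ℝ) ^ k * (N / (d * L) ^ k)) * (#S : ℝ) ^ (k - 1) := by gcongr
    _ ≤ (1 - 2 * ρ) ^ k * (A * (H : ℝ) ^ k * (N / (d * L) ^ k)) * (N * A) ^ (k - 1) := by gcongr
    _ = ((1 - 2 * ρ) * (H * U)) ^ k := by
        rw [mul_pow (1 - 2 * ρ) (H * U) k, mul_pow (H : ℝ) U k, hUk]
        ring

end Run7.h462.KT
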