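import Pool.Agent.Run7.h462.KT.Fin
import Pool.Agent.Run7.h462.KT.Fmk
import Pool.Agent.Run7.h462.KT.Clk
import Pool.Agent.Run7.h462.QA.Irr
import Pool.Agent.Run7.h824.KT.UPK
import Pool.Agent.Run7.h824.KT.AVK
import Pool.Agent.Run7.h824.KT.SQK
import Pool.Agent.Run7.h304.KT.OV
import Pool.Agent.Run7.h304.KT.GA

/-!
# Project KT: the assembled theorem
-/

set_option autoImplicit false

namespace Run7.h462.KT

open Finset Filter Topology
open Run7.h462.BPG (lam)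
open scoped Polynomial

open Classical in
/-- the theorem of project KT -/
theorem coreK (F : ℤ[X]) (k : ℕ) (hk : 1 ≤ k) (hd2 : 2 ≤ F.natDegree) (hl : 0 < F.leadingCoeff)
    (η : ℝ) (hη : 0 < η) (hη1 : η ≤ 1 / 2) :
    ∃ (E : ℕ) (c C₀ : ℝ), 0 < c ∧ 0 < C₀ ∧ ∀ ε : ℝ, 0 < ε → ∃ N0 : ℕ, ∀ N : ℕ, N0 ≤ N → ∀ A H : ℕ,
      (N : ℝ) ^ ((1 - lam F.natDegree) * (F.natDegree : ℝ) - 1 + ε) ≤ A → (A : ℝ) ≤ (N : ℝ) ^ (F.natDegree - 1) →
      C₀ * Real.log N ≤ H → H ≤ A →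
      c * (A * (H : ℝ) ^ (k - 1)) ≤ (#((Fintype.piFinset (fun _ : Fin k => Icc 1 A)).filter
        (fun a => Function.Injective a ∧ (∀ i j, a i ≤ a j + H) ∧ GoodK F η c E N a)) : ℝ) := by
  have hs : (0 : ℝ) < (F.leadingCoeff : ℝ) ^ (-1 / (F.natDegree : ℝ)) := by
    apply Real.rpow_pos_of_pos
    exact_mod_cast hl
  have hbil := BPG.bil _ F.natDegree hd2 (BPD.tii _ hs F.natDegree hd2 (BPD.spc F.natDegree (by omega)))
  have hti := BPG.ti _ hs F.natDegree hd2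
  have htri := BPG.tri (BPG.es4 Run7.h757.BP.Vau.vau hbil hti)
  have hOV : S_OV k := Run7.h304.KT.ov_main k
  exact core F k hk hd2 (fmk F k hk hd2 (Run7.h973.BPG.fm hd2 hl htri)) (Run7.h824.KT.upk F k hl (by omega) hk)
    (Run7.h824.KT.sqk F k hl.ne' (by omega) hOV) (Run7.h824.KT.avk F k (by omega) hk (Run7.h304.KT.ga_main k hk hOV))
    (clk F k (by omega)) η hη hη1

end Run7.h462.KT
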