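import Pool.Agent.Run7.h462.KT.Bas
import Pool.Agent.Run7.h462.BPD.Fin

/-! Project KT: assembly. -/

set_option autoImplicit false

namespace Run7.h462.KT

open Finset Filter Topology
open Pool.Agent.H373R2.T7 (pz Vz)
open Pool.Agent.TH204.WR (rho hh)
open Run7.h757.BP.Fin (rpow_ge_log)
open Run7.h462.BPD (numeric')
open Run7.h462.BPG (lam lam_le_quarter)
open scoped Polynomial

open Classical in
/-- the counting argument -/
lemma count_goodI {ι : Type*} {η θ D C2 C3 NL A : ℝ} (T Ex G : Finset ι) (Pf H : ι → ℝ) (hη : 0 < η) (hη1 : η ≤ 1 / 2)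
    (hD0 : 0 < D) (hD : D ≤ 1 / 2) (hθ : θ = η * D / 16) (hC2 : 0 < C2) (hC3 : 0 < C3) (hNL : 0 < NL) (hA : 0 < A)
    (hT : (#T : ℝ) ≤ A) (hH0 : ∀ a, 0 ≤ H a) (hEx : Ex ⊆ T) (hG : G ⊆ T)
    (hup : ∀ a ∈ T, a ∉ Ex → Pf a ≤ C2 * NL * H a + θ * NL)
    (hbad : ∀ a ∈ T, a ∉ Ex → a ∉ G → Pf a ≤ (1 - η) * D * (1 + θ) * NL * H a + 2 * θ * NL)
    (hExP : ∑ a ∈ Ex, Pf a ≤ θ * (A * NL)) (hSQ : ∑ a ∈ T, H a ^ 2 ≤ C3 * A)
    (hAV : ∑ a ∈ T, H a ≤ (1 + θ) * A) (hFM : (1 - θ) * (D * (A * NL)) ≤ ∑ a ∈ T, Pf a) :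
    η ^ 2 * D ^ 2 / (4 * C2 ^ 2 * C3) * A ≤ (#G : ℝ) := by
  have hη2 : 0 ≤ 1 - η := by linarith
  have hθ0 : 0 < θ := by rw [hθ]; positivity
  have hsplit : ∑ a ∈ T, Pf a ≤ ∑ a ∈ Ex, Pf a +
      ∑ a ∈ T, ((1 - η) * D * (1 + θ) * NL * H a) + 2 * θ * (A * NL) + ∑ a ∈ G, (C2 * NL * H a) +
        θ * (A * NL) := by
    have h1 : ∀ a ∈ T, Pf a ≤ (if a ∈ Ex then Pf a else 0) +
        ((1 - η) * D * (1 + θ) * NL * H a) + 2 * θ * NL + (if a ∈ G then C2 * NL * H a else 0) + θ * NL := by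
      intro a ha
      have hp1 : 0 ≤ (1 - η) * D * (1 + θ) * NL * H a := by
        have := hH0 a
        positivity
      have hp2 : 0 ≤ C2 * NL * H a := by
        have := hH0 a
        positivity
      have hp3 : 0 ≤ θ * NL := by positivity
      have hp4 : 2 * θ * NL = 2 * (θ * NL) := by ring
      by_cases haE : a ∈ Ex
      · rw [if_pos haE]
        split_ifs <;> linarith
      · rw [if_neg haE]
        by_cases haG : a ∈ G
        · rw [if_pos haG]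
          have := hup a ha haE
          linarith
        · rw [if_neg haG]
          have := hbad a ha haE haG
          linarith
    refine (sum_le_sum h1).trans ?_
    rw [sum_add_distrib, sum_add_distrib, sum_add_distrib, sum_add_distrib, sum_const, sum_const,
      nsmul_eq_mul, nsmul_eq_mul]
    have e1 : ∑ a ∈ T, (if a ∈ Ex then Pf a else 0) = ∑ a ∈ Ex, Pf a := by
      rw [← sum_filter]
      congr 1
      ext a
      rw [mem_filter]
      exact ⟨fun h => h.2, fun h => ⟨hEx h, h⟩⟩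
    have e2 : ∑ a ∈ T, (if a ∈ G then C2 * NL * H a else 0) = ∑ a ∈ G, (C2 * NL * H a) := by
      rw [← sum_filter]
      congr 1
      ext a
      rw [mem_filter]
      exact ⟨fun h => h.2, fun h => ⟨hG h, h⟩⟩
    rw [e1, e2]
    have e3 : (#T : ℝ) * (2 * θ * NL) ≤ A * (2 * θ * NL) := mul_le_mul_of_nonneg_right hT (by positivity)
    have e4 : (#T : ℝ) * (θ * NL) ≤ A * (θ * NL) := mul_le_mul_of_nonneg_right hT (by positivity)
    linarith
  obtain ⟨t, ht⟩ : ∃ t : ℝ, t = η * D / (2 * C2 * C3) := ⟨_, rfl⟩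
  have ht0 : 0 < t := by rw [ht]; positivity
  have hGF : ∑ a ∈ G, H a ≤ #G / (2 * t) + t / 2 * (C3 * A) := by
    have h1 : ∀ a ∈ G, H a ≤ 1 / (2 * t) + t / 2 * H a ^ 2 := by
      intro a _
      have h3 : H a * (2 * t) ≤ (1 / (2 * t) + t / 2 * H a ^ 2) * (2 * t) := by
        have e3 : (1 / (2 * t) + t / 2 * H a ^ 2) * (2 * t) = 1 + t ^ 2 * H a ^ 2 := by field_simp
        rw [e3]
        nlinarith [sq_nonneg (t * H a - 1)]
      exact le_of_mul_le_mul_right h3 (by positivity)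
    calc ∑ a ∈ G, H a ≤ ∑ a ∈ G, (1 / (2 * t) + t / 2 * H a ^ 2) := sum_le_sum h1
      _ = #G * (1 / (2 * t)) + t / 2 * ∑ a ∈ G, H a ^ 2 := by
          rw [sum_add_distrib, sum_const, nsmul_eq_mul, mul_sum]
      _ ≤ #G * (1 / (2 * t)) + t / 2 * (C3 * A) := by
          have h2 : ∑ a ∈ G, H a ^ 2 ≤ ∑ a ∈ T, H a ^ 2 := by
            apply sum_le_sum_of_subset_of_nonneg hG
            intro a _ _; positivity
          have h3 := h2.trans hSQ
          gcongr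
      _ = _ := by ring
  refine numeric' hη hη1 hD0 hD hθ hC2 hC3 ht hNL hA hFM hGF ?_
  refine hsplit.trans ?_
  rw [← mul_sum, ← mul_sum]
  have h1 : (1 - η) * D * (1 + θ) * NL * ∑ a ∈ T, H a ≤ (1 - η) * D * (1 + θ) * NL * ((1 + θ) * A) := by
    gcongr
  linarith

variable {k : ℕ}

/-- the property of the good tuples -/
def GoodK (F : ℤ[X]) (η c : ℝ) (E N : ℕ) (a : Fin k → ℕ) : Prop :=
  ∀ z : ℕ, Real.log N ^ E ≤ z → z ^ 6 ≤ N →
    c ≤ gk F a z ∧ (1 - η) * (gk F a z * (N / (F.natDegree * Real.log N) ^ k)) ≤ Pk F a N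

open Classical in
/-- from the pairs (tuple of shifts, start) to the tuples -/
lemma fibre (H : ℕ) (hk : 1 ≤ k) (G : Finset ((Fin k → ℕ) × ℕ)) (hG : ∀ t ∈ G, t.1 ∈ inj k H) :
    #G ≤ H * #(G.image (fun t => sh t.2 t.1)) := by
  apply card_le_mul_card_image
  intro a _
  have i0 : Fin k := ⟨0, hk⟩
  have h1 : (G.filter (fun t => sh t.2 t.1 = a)).image (fun t => t.1 i0) ⊆ range H := by
    intro m hm
    rw [mem_image] at hm
    obtain ⟨t, ht, rfl⟩ := hm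
    rw [mem_filter] at ht
    exact mem_range.2 ((mem_inj.1 (hG t ht.1)).1 i0)
  have h2 : Set.InjOn (fun t : (Fin k → ℕ) × ℕ => t.1 i0) (G.filter (fun t => sh t.2 t.1 = a)) := by
    intro t ht s hs hts
    rw [mem_coe, mem_filter] at ht hs
    simp only at hts
    have h3 : ∀ i, t.2 + t.1 i = s.2 + s.1 i := by
      intro i
      have h4 := congrFun ht.2 i
      have h5 := congrFun hs.2 i
      unfold sh at h4 h5
      omega
    have h6 : t.2 = s.2 := by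
      have := h3 i0
      omega
    have h7 : t.1 = s.1 := by
      funext i
      have := h3 i
      omega
    exact Prod.ext h7 h6
  calc #(G.filter (fun t => sh t.2 t.1 = a)) = #((G.filter (fun t => sh t.2 t.1 = a)).image (fun t => t.1 i0)) :=
        (card_image_of_injOn h2).symm
    _ ≤ #(range H) := card_le_card h1
    _ = H := card_range H

open Classical in
theorem core (F : ℤ[X]) (k : ℕ) (hk : 1 ≤ k) (hd2 : 2 ≤ F.natDegree)
    (hFM : S_FMK F k) (hUP : S_UPK F k) (hSQ : S_SQK F k) (hAV : S_AVK F k) (hCL : S_CLK F k)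
    (η : ℝ) (hη : 0 < η) (hη1 : η ≤ 1 / 2) :
    ∃ (E : ℕ) (c C₀ : ℝ), 0 < c ∧ 0 < C₀ ∧ ∀ ε : ℝ, 0 < ε → ∃ N0 : ℕ, ∀ N : ℕ, N0 ≤ N → ∀ A H : ℕ,
      (N : ℝ) ^ ((1 - lam F.natDegree) * (F.natDegree : ℝ) - 1 + ε) ≤ A → (A : ℝ) ≤ (N : ℝ) ^ (F.natDegree - 1) →
      C₀ * Real.log N ≤ H → H ≤ A →
      c * (A * (H : ℝ) ^ (k - 1)) ≤ (#((Fintype.piFinset (fun _ : Fin k => Icc 1 A)).filter
        (fun a => Function.Injective a ∧ (∀ i j, a i ≤ a j + H) ∧ GoodK F η c E N a)) : ℝ) := by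
  have hF0 : F ≠ 0 := by
    intro h
    rw [h, Polynomial.natDegree_zero] at hd2
    omega
  have hl0 : F.leadingCoeff ≠ 0 := Polynomial.leadingCoeff_ne_zero.2 hF0
  have hdR2 : (2 : ℝ) ≤ F.natDegree := by exact_mod_cast hd2
  have hlam4 := lam_le_quarter F.natDegree
  obtain ⟨D1, hD1⟩ : ∃ D1 : ℝ, D1 = 1 / (F.natDegree : ℝ) := ⟨_, rfl⟩
  have hD10 : 0 < D1 := by rw [hD1]; positivity
  have hD12 : D1 ≤ 1 / 2 := by
    rw [hD1]
    exact one_div_le_one_div_of_le (by norm_num) hdR2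
  obtain ⟨D, hD⟩ : ∃ D : ℝ, D = D1 ^ k := ⟨_, rfl⟩
  have hD0 : 0 < D := by rw [hD]; positivity
  have hD2 : D ≤ 1 / 2 := by
    rw [hD]
    exact (pow_le_of_le_one hD10.le (by linarith) (by omega)).trans hD12
  obtain ⟨e, he⟩ : ∃ e : ℝ, e = (1 - lam F.natDegree) * (F.natDegree : ℝ) - 1 := ⟨_, rfl⟩
  have he2 : 1 / 2 ≤ e := by
    have h1 : 3 / 4 * 2 ≤ (1 - lam F.natDegree) * (F.natDegree : ℝ) := by
      apply mul_le_mul (by linarith) hdR2 (by norm_num) (by linarith)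
    rw [he]
    linarith
  obtain ⟨C1, hC1, κ, hκ, hκ1, NU, hUP⟩ := hUP
  obtain ⟨θ, hθ⟩ : ∃ θ : ℝ, θ = η * D / 16 := ⟨_, rfl⟩
  have hθ0 : 0 < θ := by rw [hθ]; positivity
  have hθ64 : θ ≤ 1 / 64 := by
    have : η * D ≤ 1 / 2 * (1 / 2) := by gcongr
    rw [hθ]
    linarith
  obtain ⟨E1, hE1⟩ := hCL (k + 1) θ hθ0
  obtain ⟨E2, hE2⟩ : ∃ E2 : ℕ, E2 = E1 + 4 := ⟨_, rfl⟩
  obtain ⟨X1, hX1⟩ := hE1 E2 (by omega)
  obtain ⟨C3, hC3, NS, hSQ⟩ := hSQ E2
  obtain ⟨C2, hC2⟩ : ∃ C2 : ℝ, C2 = 2 * C1 / κ ^ k := ⟨_, rfl⟩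
  have hC20 : 0 < C2 := by rw [hC2]; positivity
  obtain ⟨NA, HA, hAV⟩ := hAV E2 θ hθ0
  obtain ⟨c0, B, hc0, hB0, hFM⟩ := hFM θ hθ0
  obtain ⟨c1, hc1⟩ : ∃ c1 : ℝ, c1 = θ / (2 * C2) := ⟨_, rfl⟩
  have hc10 : 0 < c1 := by rw [hc1]; positivity
  obtain ⟨b, hb⟩ : ∃ b : ℝ, b = min c0 1 := ⟨_, rfl⟩
  have hb0 : 0 < b := by rw [hb]; exact lt_min hc0 one_pos
  have hb1 : b ≤ 1 := by rw [hb]; exact min_le_right _ _
  have hbc : b ≤ c0 := by rw [hb]; exact min_le_left _ _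
  obtain ⟨b2, hb2⟩ : ∃ b2 : ℝ, b2 = b * b / 2 := ⟨_, rfl⟩
  have hb20 : 0 < b2 := by rw [hb2]; positivity
  have hb21 : b2 ≤ 1 := by rw [hb2]; nlinarith
  obtain ⟨c2, hc2⟩ : ∃ c2 : ℝ, c2 = η ^ 2 * D ^ 2 / (4 * C2 ^ 2 * C3) := ⟨_, rfl⟩
  have hc20 : 0 < c2 := by rw [hc2]; positivity
  refine ⟨E2 + 1, min c1 (c2 * (b / 2) * (b2 / 2) ^ (k - 1)), 2 * (B + 1) / b2, lt_min hc10 (by positivity),
    by positivity, fun ε hε => ?_⟩
  obtain ⟨cc, hcc⟩ : ∃ cc : ℝ, cc = c2 * (b / 2) * (b2 / 2) ^ (k - 1) := ⟨_, rfl⟩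
  rw [← hcc]
  obtain ⟨NF, hFM⟩ := hFM (ε / 2) (by positivity)
  -- largeness
  have hlimL : Tendsto (fun N : ℕ => Real.log (N : ℝ)) atTop atTop :=
    Real.tendsto_log_atTop.comp tendsto_natCast_atTop_atTop
  have hlimp : ∀ p : ℝ, 0 < p → Tendsto (fun N : ℕ => (N : ℝ) ^ p) atTop atTop := fun p hp =>
    (tendsto_rpow_atTop hp).comp tendsto_natCast_atTop_atTop
  obtain ⟨M1, hM1⟩ := eventually_atTop.1 (rpow_ge_log κ hκ E2 ((F.natDegree : ℝ) ^ E2) (by positivity))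
  obtain ⟨M2, hM2⟩ := eventually_atTop.1 (rpow_ge_log (1 / 4) (by norm_num) k (C1 / θ) (by positivity))
  obtain ⟨M3, hM3⟩ := eventually_atTop.1 (hlimL.eventually_ge_atTop
    ((F.natDegree : ℝ) ^ E2 + k * 2 ^ (k + 1) / θ + 8 + HA))
  obtain ⟨M4, hM4⟩ := eventually_atTop.1 ((hlimp (ε / 2) (by positivity)).eventually_ge_atTop (2 / b))
  obtain ⟨M5, hM5⟩ := eventually_atTop.1 ((hlimp (1 / 2) (by norm_num)).eventually_ge_atTop
    ((X1 : ℝ) + NS + NA + 2))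
  refine ⟨NU + NF + M1 + M2 + M3 + M4 + M5 + 10, fun N hN A0 H0 hA01 hA02 hH01 hH02 => ?_⟩
  have g1 := hM1 N (by omega)
  have g2 := hM2 N (by omega)
  have g3 := hM3 N (by omega)
  have g4 := hM4 N (by omega)
  have g5 := hM5 N (by omega)
  obtain ⟨L, hL⟩ : ∃ L : ℝ, L = Real.log N := ⟨_, rfl⟩
  rw [← hL] at g1 g2 g3 hH01
  have hNR : (10 : ℝ) ≤ N := by exact_mod_cast (by omega : 10 ≤ N)
  have hN0 : (0 : ℝ) < N := by linarith
  have hN1 : (1 : ℝ) ≤ N := by linarith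
  have h8θ : 0 ≤ (k : ℝ) * 2 ^ (k + 1) / θ := by positivity
  have h4E : (1 : ℝ) ≤ (F.natDegree : ℝ) ^ E2 := one_le_pow₀ (by linarith)
  have hHA0 : (0 : ℝ) ≤ HA := Nat.cast_nonneg _
  have hL8 : 8 ≤ L := by linarith
  have hL0 : 0 < L := by linarith
  -- `A`
  obtain ⟨A, hA⟩ : ∃ A : ℕ, A = ⌊b * A0⌋₊ := ⟨_, rfl⟩
  have hA0R : (0 : ℝ) ≤ A0 := Nat.cast_nonneg _
  have hAle : (A : ℝ) ≤ b * A0 := by rw [hA]; exact Nat.floor_le (by positivity)
  have hA0ge : (N : ℝ) ^ (e + ε) ≤ A0 := by rw [he]; exact hA01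
  have hNpos : 0 < (N : ℝ) ^ (e + ε / 2) := Real.rpow_pos_of_pos hN0 _
  have hNe1 : 1 ≤ (N : ℝ) ^ (e + ε / 2) := Real.one_le_rpow hN1 (by linarith)
  have hbA0 : 2 * (N : ℝ) ^ (e + ε / 2) ≤ b * A0 := by
    have h1 : (N : ℝ) ^ (e + ε) = (N : ℝ) ^ (e + ε / 2) * (N : ℝ) ^ (ε / 2) := by
      rw [← Real.rpow_add hN0]
      congr 1
      ring
    rw [h1] at hA0ge
    have h2 : (N : ℝ) ^ (e + ε / 2) * (2 / b) ≤ A0 := by
      refine le_trans ?_ hA0ge
      gcongr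
    calc 2 * (N : ℝ) ^ (e + ε / 2) = b * ((N : ℝ) ^ (e + ε / 2) * (2 / b)) := by field_simp
      _ ≤ _ := by gcongr
  have hAge2 : b * A0 / 2 ≤ A := by
    have h1 : b * A0 < A + 1 := by rw [hA]; exact Nat.lt_floor_add_one _
    have h2 : 2 ≤ b * A0 := by linarith
    linarith
  have hAge : (N : ℝ) ^ (e + ε / 2) ≤ A := by linarith
  have hAlec : (A : ℝ) ≤ c0 * (N : ℝ) ^ (F.natDegree - 1) := by
    refine hAle.trans ?_
    gcongr
  have hAN : (A : ℝ) ≤ (N : ℝ) ^ (F.natDegree - 1) := by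
    refine hAle.trans ?_
    calc b * A0 ≤ 1 * A0 := by gcongr
      _ = A0 := one_mul _
      _ ≤ _ := hA02
  have hAA0 : A ≤ A0 := by
    have h1 : (A : ℝ) ≤ A0 := by
      refine hAle.trans ?_
      calc b * A0 ≤ 1 * A0 := by gcongr
        _ = A0 := one_mul _
    exact_mod_cast h1
  have hAhalf : (N : ℝ) ^ (1 / 2 : ℝ) ≤ A :=
    (Real.rpow_le_rpow_of_exponent_le hN1 (by linarith)).trans hAge
  have hAbig : (X1 : ℝ) + NS + NA + 2 ≤ A := g5.trans hAhalf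
  have hAbig' : X1 + NS + NA + 2 ≤ A := by exact_mod_cast hAbig
  have hApos : (0 : ℝ) < A := by
    have : (0 : ℝ) ≤ X1 := Nat.cast_nonneg _
    have : (0 : ℝ) ≤ NS := Nat.cast_nonneg _
    have : (0 : ℝ) ≤ NA := Nat.cast_nonneg _
    linarith
  -- `H`
  obtain ⟨H, hH⟩ : ∃ H : ℕ, H = ⌊b2 * H0⌋₊ := ⟨_, rfl⟩
  have hH0R : (0 : ℝ) ≤ H0 := Nat.cast_nonneg _
  have hHle : (H : ℝ) ≤ b2 * H0 := by rw [hH]; exact Nat.floor_le (by positivity)
  have hbH : 2 * (B + 1) * L ≤ b2 * H0 := by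
    rw [div_mul_eq_mul_div, div_le_iff₀ hb20] at hH01
    linarith
  have hBL : 0 ≤ B * L := by positivity
  have hHge2 : b2 * H0 / 2 ≤ H := by
    have h1 : b2 * H0 < H + 1 := by rw [hH]; exact Nat.lt_floor_add_one _
    nlinarith
  have hHge : (B + 1) * L ≤ H := by linarith
  have hHB : B * L ≤ H := by nlinarith
  have hHL : L ≤ H := by nlinarith
  have hHpos : (0 : ℝ) < H := by linarith
  have hHc : (H : ℝ) ≤ c0 * A := by
    calc (H : ℝ) ≤ b2 * H0 := hHle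
      _ ≤ b2 * A0 := by
          have : (H0 : ℝ) ≤ A0 := by exact_mod_cast hH02
          gcongr
      _ = b * (b * A0 / 2) := by rw [hb2]; ring
      _ ≤ b * A := by gcongr
      _ ≤ c0 * A := by gcongr
  have hHbA : (H : ℝ) ≤ A := by
    calc (H : ℝ) ≤ b2 * H0 := hHle
      _ ≤ b2 * A0 := by
          have : (H0 : ℝ) ≤ A0 := by exact_mod_cast hH02
          gcongr
      _ = b * (b * A0 / 2) := by rw [hb2]; ring
      _ ≤ b * A := by gcongr
      _ ≤ 1 * A := by gcongr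
      _ = A := one_mul _
  have hHA' : H ≤ A := by exact_mod_cast hHbA
  have hHH0 : H ≤ H0 := by
    have h1 : (H : ℝ) ≤ H0 := by
      refine hHle.trans ?_
      calc b2 * H0 ≤ 1 * H0 := by gcongr
        _ = H0 := one_mul _
    exact_mod_cast h1
  have hHHA : HA ≤ H := by
    have h1 : (HA : ℝ) ≤ H := by linarith
    exact_mod_cast h1
  obtain ⟨LA, hLA⟩ : ∃ LA : ℝ, LA = Real.log A := ⟨_, rfl⟩
  have hLA1 : L / 2 ≤ LA := by
    rw [hLA]
    have h1 := Real.log_le_log (by positivity) hAhalf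
    rw [Real.log_rpow hN0, ← hL] at h1
    linarith
  have hLA2 : LA ≤ F.natDegree * L := by
    rw [hLA]
    have h1 := Real.log_le_log hApos hAN
    rw [Real.log_pow, ← hL] at h1
    have h2 : ((F.natDegree - 1 : ℕ) : ℝ) ≤ F.natDegree := by exact_mod_cast (by omega : F.natDegree - 1 ≤ F.natDegree)
    exact h1.trans (mul_le_mul_of_nonneg_right h2 hL0.le)
  have hLA0 : 0 < LA := by linarith
  have hLA4 : 4 ≤ LA := by linarith
  -- `w`
  obtain ⟨w, hw⟩ : ∃ w : ℕ, w = ⌊LA ^ E2⌋₊ := ⟨_, rfl⟩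
  have hwle : (w : ℝ) ≤ LA ^ E2 := by rw [hw]; exact Nat.floor_le (by positivity)
  have hLAE : LA * LA ≤ LA ^ E2 := by
    calc LA * LA = LA ^ 2 := by ring
      _ ≤ LA ^ E2 := pow_le_pow_right₀ (by linarith) (by omega)
  have hLAsq : 4 * LA ≤ LA * LA := mul_le_mul_of_nonneg_right hLA4 hLA0.le
  have hwge : LA ≤ w := by
    have h1 : LA ^ E2 < w + 1 := by rw [hw]; exact Nat.lt_floor_add_one _
    linarith
  have hw2 : 2 ≤ w := by
    have h1 : (2 : ℝ) ≤ w := by linarith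
    exact_mod_cast h1
  have h4L : LA ^ E2 ≤ (F.natDegree : ℝ) ^ E2 * L ^ E2 := by
    rw [← mul_pow]
    exact pow_le_pow_left₀ hLA0.le hLA2 _
  obtain ⟨z0, hz02, hz0κ, hz010, hz0P⟩ := hUP N (by omega)
  have hwz0 : w ≤ z0 := by
    have h1 : (w : ℝ) ≤ z0 := hwle.trans (h4L.trans (g1.trans hz0κ))
    exact_mod_cast h1
  have hz03 : z0 ^ 3 ≤ A := by
    have h1 : ((z0 ^ 3 : ℕ) : ℝ) ≤ A := by
      push_cast
      calc (z0 : ℝ) ^ 3 ≤ ((N : ℝ) ^ (1 / 10 : ℝ)) ^ 3 := by gcongr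
        _ = (N : ℝ) ^ (3 / 10 : ℝ) := by
            rw [← Real.rpow_natCast, ← Real.rpow_mul hN0.le]
            norm_num
        _ ≤ (N : ℝ) ^ (1 / 2 : ℝ) := Real.rpow_le_rpow_of_exponent_le hN1 (by norm_num)
        _ ≤ A := hAhalf
    exact_mod_cast h1
  -- the index set and the exceptions
  obtain ⟨Bt, hBt1, hBt2, hBt3⟩ := hX1 A (by omega)
  rw [← hLA] at hBt2 hBt3
  rw [← hw] at hBt3
  obtain ⟨T, hT⟩ : ∃ T : Finset ((Fin k → ℕ) × ℕ), T = inj k H ×ˢ Icc 1 (A - H) := ⟨_, rfl⟩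
  have hTm : ∀ t ∈ T, t.1 ∈ inj k H ∧ 1 ≤ t.2 ∧ t.2 ≤ A - H := by
    intro t ht
    rw [hT, mem_product, mem_Icc] at ht
    exact ht
  have hTI : ∀ t ∈ T, ∀ i, sh t.2 t.1 i ∈ Icc 1 A := by
    intro t ht i
    obtain ⟨h1, h2, h3⟩ := hTm t ht
    have h4 := (mem_inj.1 h1).1 i
    rw [mem_Icc]
    unfold sh
    omega
  have hTJ : ∀ t ∈ T, Function.Injective (sh t.2 t.1) := fun t ht => sh_injective (mem_inj.1 (hTm t ht).1).2
  obtain ⟨M, hM⟩ : ∃ M : ℝ, M = A * (H : ℝ) ^ k := ⟨_, rfl⟩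
  have hM0 : 0 < M := by rw [hM]; positivity
  have hTc : (#T : ℝ) ≤ M := by
    rw [hT, card_product, Nat.card_Icc, Nat.add_sub_cancel, hM]
    push_cast
    rw [mul_comm]
    have h1 : ((A - H : ℕ) : ℝ) ≤ A := by exact_mod_cast Nat.sub_le A H
    have h2 : (#(inj k H) : ℝ) ≤ (H : ℝ) ^ k := by exact_mod_cast card_inj_le k H
    gcongr
  have hclose : ∀ t ∈ T, (∀ i, sh t.2 t.1 i ∉ Bt) → ∀ z : ℕ, w ≤ z → z ^ 3 ≤ A →
      |gk F (sh t.2 t.1) z - gk F (sh t.2 t.1) w| ≤ θ * gk F (sh t.2 t.1) w :=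
    fun t ht hB z hwz hz3 => hBt3 (sh t.2 t.1) (hTJ t ht) (hTI t ht) hB z hwz hz3
  obtain ⟨Ex, hEx⟩ : ∃ Ex : Finset ((Fin k → ℕ) × ℕ), Ex = T.filter (fun t => ∃ i, sh t.2 t.1 i ∈ Bt) := ⟨_, rfl⟩
  have hExsub : Ex ⊆ T := by rw [hEx]; exact filter_subset _ _
  have hExc : (#Ex : ℝ) ≤ k * ((H : ℝ) ^ k * (A / LA ^ (k + 1))) := by
    have h1 : Ex ⊆ (univ : Finset (Fin k)).biUnion (fun i => T.filter (fun t => sh t.2 t.1 i ∈ Bt)) := by
      intro t ht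
      rw [hEx, mem_filter] at ht
      obtain ⟨h2, i, hi⟩ := ht
      rw [mem_biUnion]
      exact ⟨i, mem_univ _, mem_filter.2 ⟨h2, hi⟩⟩
    have h2 : ∀ i : Fin k, #(T.filter (fun t => sh t.2 t.1 i ∈ Bt)) ≤ H ^ k * #Bt := by
      intro i
      have h3 : #(T.filter (fun t => sh t.2 t.1 i ∈ Bt)) ≤ #(inj k H ×ˢ Bt) := by
        apply Finset.card_le_card_of_injOn (fun t => (t.1, sh t.2 t.1 i))
        · intro t ht
          rw [mem_coe, mem_filter] at ht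
          rw [mem_coe, mem_product]
          exact ⟨(hTm t ht.1).1, ht.2⟩
        · intro t ht s hs hts
          simp only [Prod.mk.injEq] at hts
          obtain ⟨h4, h5⟩ := hts
          unfold sh at h5
          rw [h4] at h5
          exact Prod.ext h4 (by omega)
      refine h3.trans ?_
      rw [card_product]
      exact Nat.mul_le_mul_right _ (card_inj_le k H)
    have h3 : #Ex ≤ k * (H ^ k * #Bt) := by
      refine (card_le_card h1).trans (card_biUnion_le.trans ?_)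
      refine (sum_le_sum fun i _ => h2 i).trans ?_
      simp
    have h4 : (#Ex : ℝ) ≤ k * ((H : ℝ) ^ k * #Bt) := by exact_mod_cast h3
    refine h4.trans ?_
    gcongr
  have hExn : ∀ t ∈ T, t ∉ Ex → ∀ i, sh t.2 t.1 i ∉ Bt := by
    intro t ht htE i hB
    apply htE
    rw [hEx, mem_filter]
    exact ⟨ht, i, hB⟩
  -- the function
  obtain ⟨G1, hG1⟩ : ∃ G1 : (Fin k → ℕ) × ℕ → ℝ, G1 = fun t => gk F (sh t.2 t.1) w := ⟨_, rfl⟩
  have hG10 : ∀ t, 0 ≤ G1 t := by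
    intro t
    rw [hG1]
    exact gk_nonneg F _ w
  have hG1a : ∀ t : (Fin k → ℕ) × ℕ, gk F (sh t.2 t.1) w = G1 t := fun t => by rw [hG1]
  have hSQ' : ∑ t ∈ T, G1 t ^ 2 ≤ C3 * M := by
    have h1 := hSQ A (by omega) w hw2 (by rw [← hLA]; exact hwle) H
    rw [hM]
    refine le_trans ?_ h1
    rw [hT, sum_product, hG1]
    apply sum_le_sum
    intro h _
    apply sum_le_sum_of_subset_of_nonneg
    · apply Icc_subset_Icc_right
      omega
    · intro y _ _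
      positivity
  have hAV' : ∑ t ∈ T, G1 t ≤ (1 + θ) * M := by
    have h1 := hAV A (by omega) w (by rw [← hLA]; exact hwge) (by rw [← hLA]; exact hwle) H hHHA
    rw [hM]
    refine le_trans ?_ h1
    rw [hT, sum_product, hG1]
    apply sum_le_sum
    intro h _
    apply sum_le_sum_of_subset_of_nonneg
    · apply Icc_subset_Icc_right
      omega
    · intro y _ _
      exact gk_nonneg F _ w
  simp only [hG1a] at hclose
  obtain ⟨NL, hNL⟩ : ∃ NL : ℝ, NL = (N : ℝ) / L ^ k := ⟨_, rfl⟩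
  have hNL0 : 0 < NL := by rw [hNL]; positivity
  have hVz : Vz z0 ≤ 1 / (κ * L) := by
    have h1 : Vz z0 ≤ 1 / Real.log z0 := Pool.Agent.N792.V1_le z0 hz02
    refine h1.trans (one_div_le_one_div_of_le (by positivity) ?_)
    have h2 := Real.log_le_log (by positivity) hz0κ
    rw [Real.log_rpow hN0, ← hL] at h2
    exact h2
  have hVz0 : 0 < Vz z0 := Pool.Agent.H373R2.T7.Vz_pos z0
  have hup : ∀ t ∈ T, t ∉ Ex → (Pk F (sh t.2 t.1) N : ℝ) ≤ C2 * NL * G1 t + θ * NL := by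
    intro t ht htE
    have h1 := hclose t ht (hExn t ht htE) z0 hwz0 hz03
    have h2 := (abs_le.1 h1).2
    have h3 : gk F (sh t.2 t.1) z0 ≤ 2 * G1 t := by
      have h4 : θ * G1 t ≤ 1 * G1 t := mul_le_mul_of_nonneg_right (by linarith) (hG10 t)
      linarith
    have h5 := hz0P (sh t.2 t.1)
    have h50 : 0 ≤ gk F (sh t.2 t.1) z0 := gk_nonneg F _ z0
    have h6 : C1 * N * (Vz z0 ^ k * gk F (sh t.2 t.1) z0) ≤ C2 * NL * G1 t := by
      calc C1 * N * (Vz z0 ^ k * gk F (sh t.2 t.1) z0) ≤ C1 * N * ((1 / (κ * L)) ^ k * (2 * G1 t)) := by gcongr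
        _ = C2 * NL * G1 t := by
            rw [hC2, hNL, div_pow, one_pow, mul_pow]
            field_simp
    have h7 : C1 * (N : ℝ) ^ (3 / 4 : ℝ) ≤ θ * NL := by
      have h8 : (N : ℝ) = (N : ℝ) ^ (3 / 4 : ℝ) * (N : ℝ) ^ (1 / 4 : ℝ) := by
        rw [← Real.rpow_add hN0]
        norm_num
      rw [hNL, mul_div_assoc', le_div_iff₀ (by positivity)]
      have h9 : C1 * L ^ k ≤ θ * (N : ℝ) ^ (1 / 4 : ℝ) := by
        rw [div_mul_eq_mul_div, div_le_iff₀ hθ0] at g2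
        linarith
      calc C1 * (N : ℝ) ^ (3 / 4 : ℝ) * L ^ k = (N : ℝ) ^ (3 / 4 : ℝ) * (C1 * L ^ k) := by ring
        _ ≤ (N : ℝ) ^ (3 / 4 : ℝ) * (θ * (N : ℝ) ^ (1 / 4 : ℝ)) := by gcongr
        _ = θ * ((N : ℝ) ^ (3 / 4 : ℝ) * (N : ℝ) ^ (1 / 4 : ℝ)) := by ring
        _ = θ * N := by rw [← h8]
    linarith
  -- bad tuples
  have hbad : ∀ t ∈ T, t ∉ Ex → ¬ GoodK F η c1 (E2 + 1) N (sh t.2 t.1) →
      (Pk F (sh t.2 t.1) N : ℝ) ≤ (1 - η) * D * (1 + θ) * NL * G1 t + 2 * θ * NL := by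
    intro t ht htE hng
    unfold GoodK at hng
    push Not at hng
    obtain ⟨z, hz1, hz2, hz3⟩ := hng
    have hη2 : 0 ≤ 1 - η := by linarith
    have hHa0 := hG10 t
    have hwz : w ≤ z := by
      have h1 : (w : ℝ) ≤ z := by
        refine hwle.trans (h4L.trans (le_trans ?_ hz1))
        rw [← hL, pow_succ, mul_comm]
        apply mul_le_mul_of_nonneg_left _ (by positivity)
        linarith
      exact_mod_cast h1
    have hz3A : z ^ 3 ≤ A := by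
      have h1 : ((z ^ 3 : ℕ) : ℝ) ≤ A := by
        refine le_trans ?_ hAhalf
        rw [← Real.sqrt_eq_rpow]
        apply Real.le_sqrt_of_sq_le
        have h2 : (z ^ 3) ^ 2 ≤ N := by
          rw [← pow_mul]
          exact hz2
        exact_mod_cast h2
      exact_mod_cast h1
    have h1 := hclose t ht (hExn t ht htE) z hwz hz3A
    rw [abs_le] at h1
    rcases lt_or_ge (gk F (sh t.2 t.1) z) c1 with hc | hc
    · have h2 : G1 t ≤ 2 * c1 := by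
        have h4 : θ * G1 t ≤ 1 / 2 * G1 t := mul_le_mul_of_nonneg_right (by linarith) (hG10 t)
        linarith
      have h3 := hup t ht htE
      have h4 : C2 * NL * G1 t ≤ C2 * NL * (2 * c1) := by gcongr
      have h5 : C2 * NL * (2 * c1) = θ * NL := by
        rw [hc1]
        field_simp
      have h6 : 0 ≤ (1 - η) * D * (1 + θ) * NL * G1 t := by positivity
      linarith
    · have h2 := hz3 hc
      refine h2.le.trans ?_
      have h3 : gk F (sh t.2 t.1) z ≤ (1 + θ) * G1 t := by linarith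
      have h4 : (N : ℝ) / (F.natDegree * Real.log N) ^ k = D * NL := by
        rw [hD, hD1, hNL, ← hL, mul_pow, div_pow, one_pow]
        field_simp
      rw [h4]
      have h5 : 0 ≤ 2 * θ * NL := by positivity
      calc (1 - η) * (gk F (sh t.2 t.1) z * (D * NL)) ≤ (1 - η) * (((1 + θ) * G1 t) * (D * NL)) := by gcongr
        _ = (1 - η) * D * (1 + θ) * NL * G1 t := by ring
        _ ≤ _ := by linarith
  -- the sets
  obtain ⟨G, hG⟩ : ∃ G : Finset ((Fin k → ℕ) × ℕ), G = T.filter (fun t => GoodK F η c1 (E2 + 1) N (sh t.2 t.1)) := ⟨_, rfl⟩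
  have hExP : ∑ t ∈ Ex, (Pk F (sh t.2 t.1) N : ℝ) ≤ θ * (M * NL) := by
    calc ∑ t ∈ Ex, (Pk F (sh t.2 t.1) N : ℝ) ≤ ∑ _t ∈ Ex, (N : ℝ) := sum_le_sum fun t _ => Pk_le F _ N
      _ = #Ex * N := by rw [sum_const, nsmul_eq_mul]
      _ ≤ (k * ((H : ℝ) ^ k * (A / LA ^ (k + 1)))) * N := by gcongr
      _ ≤ (k * ((H : ℝ) ^ k * (A / (L / 2) ^ (k + 1)))) * N := by gcongr
      _ = (M * NL) * (k * 2 ^ (k + 1) / L) := by
          rw [hNL, hM, div_pow, pow_succ L]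
          field_simp
      _ ≤ (M * NL) * θ := by
          apply mul_le_mul_of_nonneg_left _ (by positivity)
          rw [div_le_iff₀ hL0]
          have h2 : (k : ℝ) * 2 ^ (k + 1) / θ ≤ L := by linarith
          rw [div_le_iff₀ hθ0] at h2
          linarith
      _ = _ := by ring
  have hFMN := hFM N (by omega) A H (by
    refine le_trans (le_of_eq ?_) hAge
    rw [he]) hAlec (by rw [← hL]; exact hHB) hHc
  have e4 : (A : ℝ) * (H : ℝ) ^ k * (N / (F.natDegree * Real.log N) ^ k) = D * (M * NL) := by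
    rw [hNL, ← hL, hD, hD1, hM, mul_pow, div_pow, one_pow]
    field_simp
  rw [e4] at hFMN
  have hFMN' : (1 - θ) * (D * (M * NL)) ≤ ∑ t ∈ T, (Pk F (sh t.2 t.1) N : ℝ) := by
    rw [hT, sum_product]
    exact hFMN
  have hGs : G ⊆ T := by rw [hG]; exact filter_subset _ _
  have hfin : η ^ 2 * D ^ 2 / (4 * C2 ^ 2 * C3) * M ≤ (#G : ℝ) := by
    refine count_goodI T Ex G (fun t => (Pk F (sh t.2 t.1) N : ℝ)) G1 hη hη1 hD0 hD2 hθ hC20 (by linarith) hNL0 hM0 hTc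
      hG10 hExsub hGs hup ?_ hExP hSQ' hAV' hFMN'
    intro t ht htE htG
    refine hbad t ht htE (fun hg => htG ?_)
    rw [hG, mem_filter]
    exact ⟨ht, hg⟩
  rw [← hc2] at hfin
  have hfib := fibre H hk G (fun t ht => (hTm t (hGs ht)).1)
  obtain ⟨R, hR⟩ : ∃ R : Finset (Fin k → ℕ), R = (Fintype.piFinset (fun _ : Fin k => Icc 1 A0)).filter
    (fun a => Function.Injective a ∧ (∀ i j, a i ≤ a j + H0) ∧ GoodK F η (min c1 cc) (E2 + 1) N a) := ⟨_, rfl⟩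
  rw [← hR]
  have hsub : G.image (fun t => sh t.2 t.1) ⊆ R := by
    intro a ha
    rw [mem_image] at ha
    obtain ⟨t, ht, rfl⟩ := ha
    have htT := hGs ht
    rw [hG, mem_filter] at ht
    rw [hR, mem_filter, Fintype.mem_piFinset]
    refine ⟨fun i => ?_, hTJ t htT, fun i j => ?_, ?_⟩
    · have := mem_Icc.1 (hTI t htT i)
      rw [mem_Icc]
      omega
    · have h1 := (mem_inj.1 (hTm t htT).1).1 i
      unfold sh
      omega
    · intro z hz1 hz2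
      obtain ⟨h1, h2⟩ := ht.2 z hz1 hz2
      exact ⟨(min_le_left _ _).trans h1, h2⟩
  have hGR : (#G : ℝ) ≤ H * #R := by
    have h1 : #G ≤ H * #R := hfib.trans (Nat.mul_le_mul_left _ (card_le_card hsub))
    exact_mod_cast h1
  have hkk : (H : ℝ) ^ k = H * (H : ℝ) ^ (k - 1) := by
    rw [← pow_succ']
    congr 1
    omega
  have h10 : c2 * (A * (H : ℝ) ^ (k - 1)) ≤ #R := by
    have h11 : (H : ℝ) * (c2 * (A * (H : ℝ) ^ (k - 1))) ≤ H * #R := by
      calc (H : ℝ) * (c2 * (A * (H : ℝ) ^ (k - 1))) = c2 * M := by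
            rw [hM, hkk]
            ring
        _ ≤ _ := hfin.trans hGR
    exact le_of_mul_le_mul_left h11 hHpos
  refine le_trans ?_ h10
  calc min c1 cc * (A0 * (H0 : ℝ) ^ (k - 1)) ≤ cc * (A0 * (H0 : ℝ) ^ (k - 1)) := by
        apply mul_le_mul_of_nonneg_right (min_le_right _ _) (by positivity)
    _ = c2 * ((b * A0 / 2) * (b2 * H0 / 2) ^ (k - 1)) := by
        rw [hcc]
        have : (b2 * (H0 : ℝ) / 2) ^ (k - 1) = (b2 / 2) ^ (k - 1) * (H0 : ℝ) ^ (k - 1) := by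
          rw [← mul_pow]
          congr 1
          ring
        rw [this]
        ring
    _ ≤ c2 * (A * (H : ℝ) ^ (k - 1)) := by gcongr

end Run7.h462.KT
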